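import Pool.Agent.R137.OP.Stm

open Filter Topology Set
open scoped BigOperators

namespace Pool.Agent.R137.OP.C1x

theorem main : S_CNT1 := by
  intro ι _ A B hA0 hB0 hA1 hB1 hAs hBs ⟨e⟩
  classical
  have hbot : (e ⟨∅, hA0⟩ : Set ι) = ∅ := by
    have h1 : (⟨∅, hA0⟩ : A) ≤ e.symm ⟨∅, hB0⟩ := by
      change (∅ : Set ι) ⊆ _
      exact empty_subset _
    have h2 : e ⟨∅, hA0⟩ ≤ ⟨∅, hB0⟩ := by
      have := e.monotone h1
      rwa [e.apply_symm_apply] at this
    exact subset_empty_iff.1 h2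
  have hatom : ∀ i, ∃ j, (e ⟨{i}, hAs i⟩ : Set ι) = {j} := by
    intro i
    have hne : (e ⟨{i}, hAs i⟩ : Set ι).Nonempty := by
      rw [nonempty_iff_ne_empty]
      intro h0
      have h1 : e ⟨{i}, hAs i⟩ = e ⟨∅, hA0⟩ := Subtype.ext (by rw [h0, hbot])
      have h2 := e.injective h1
      have h3 : ({i} : Set ι) = ∅ := congrArg Subtype.val h2
      exact (singleton_ne_empty i) h3
    obtain ⟨j, hj⟩ := hne
    refine ⟨j, ?_⟩
    have h1 : (⟨{j}, hBs j⟩ : B) ≤ e ⟨{i}, hAs i⟩ := by
      change ({j} : Set ι) ⊆ _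
      exact singleton_subset_iff.2 hj
    have h2 : e.symm ⟨{j}, hBs j⟩ ≤ ⟨{i}, hAs i⟩ := by
      have := e.symm.monotone h1
      rwa [e.symm_apply_apply] at this
    have h3 : (e.symm ⟨{j}, hBs j⟩ : Set ι) ⊆ {i} := h2
    rcases subset_singleton_iff_eq.1 h3 with h4 | h4
    · exfalso
      have h5 : e.symm ⟨{j}, hBs j⟩ = ⟨∅, hA0⟩ := Subtype.ext h4
      have h6 : (⟨{j}, hBs j⟩ : B) = e ⟨∅, hA0⟩ := by rw [← h5, e.apply_symm_apply]
      have h7 : ({j} : Set ι) = ∅ := by
        have := congrArg Subtype.val h6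
        rw [hbot] at this
        exact this
      exact (singleton_ne_empty j) h7
    · have h5 : e.symm ⟨{j}, hBs j⟩ = ⟨{i}, hAs i⟩ := Subtype.ext h4
      rw [← h5, e.apply_symm_apply]
  choose σ hσ using hatom
  have hmem : ∀ (F : A) (i : ι), i ∈ (F : Set ι) ↔ σ i ∈ (e F : Set ι) := by
    intro F i
    have h1 : (⟨{i}, hAs i⟩ : A) ≤ F ↔ e ⟨{i}, hAs i⟩ ≤ e F := e.le_iff_le.symm
    have h2 : (⟨{i}, hAs i⟩ : A) ≤ F ↔ i ∈ (F : Set ι) := by
      change ({i} : Set ι) ⊆ _ ↔ _
      exact singleton_subset_iff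
    have h3 : e ⟨{i}, hAs i⟩ ≤ e F ↔ σ i ∈ (e F : Set ι) := by
      change (e ⟨{i}, hAs i⟩ : Set ι) ⊆ _ ↔ _
      rw [hσ i]
      exact singleton_subset_iff
    rw [← h2, h1, h3]
  have hinj : Function.Injective σ := by
    intro i j hij
    have h1 : e ⟨{i}, hAs i⟩ = e ⟨{j}, hAs j⟩ := Subtype.ext (by rw [hσ, hσ, hij])
    have h2 := e.injective h1
    have h3 : ({i} : Set ι) = {j} := congrArg Subtype.val h2
    exact singleton_eq_singleton_iff.1 h3
  have hsurj : Function.Surjective σ := Finite.injective_iff_surjective.1 hinj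
  have himg : ∀ F : A, (e F : Set ι) = σ '' (F : Set ι) := by
    intro F
    ext j
    constructor
    · intro hj
      obtain ⟨i, rfl⟩ := hsurj j
      exact ⟨i, (hmem F i).2 hj, rfl⟩
    · rintro ⟨i, hi, rfl⟩
      exact (hmem F i).1 hi
  have himgu : ∀ F : Set ι, σ '' F = univ ↔ F = univ := by
    intro F
    constructor
    · intro h
      ext i
      simp only [mem_univ, iff_true]
      have : σ i ∈ σ '' F := by rw [h]; trivial
      exact (hinj.mem_set_image).1 this
    · rintro rfl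
      rw [image_univ]
      exact hsurj.range_eq
  have hCo : Co B = (fun F => σ '' F) '' Co A := by
    ext G
    constructor
    · rintro ⟨hG, hGu, hGm⟩
      obtain ⟨F, hF⟩ := e.surjective ⟨G, hG⟩
      have hGF : G = σ '' (F : Set ι) := by rw [← himg F, hF]
      refine ⟨F, ⟨F.2, ?_, ?_⟩, hGF.symm⟩
      · intro h
        exact hGu (by rw [hGF, (himgu _).2 h])
      · intro F' hF' hsub
        have h1 : σ '' F' ∈ B := by
          have := (e ⟨F', hF'⟩).2
          rwa [himg ⟨F', hF'⟩] at this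
        rcases hGm _ h1 (by rw [hGF]; exact image_mono hsub) with h2 | h2
        · left
          rw [hGF] at h2
          exact (image_injective.2 hinj) h2
        · right
          exact (himgu _).1 h2
    · rintro ⟨F, ⟨hF, hFu, hFm⟩, rfl⟩
      refine ⟨?_, ?_, ?_⟩
      · have := (e ⟨F, hF⟩).2
        rwa [himg ⟨F, hF⟩] at this
      · intro h
        exact hFu ((himgu _).1 h)
      · intro G hG hsub
        obtain ⟨F', hF'⟩ := e.surjective ⟨G, hG⟩
        have hGF : G = σ '' (F' : Set ι) := by rw [← himg F', hF']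
        rw [hGF] at hsub ⊢
        have h1 : F ⊆ (F' : Set ι) := (image_subset_image_iff hinj).1 hsub
        rcases hFm _ F'.2 h1 with h2 | h2
        · left; rw [h2]
        · right; exact (himgu _).2 h2
  have hinj2 : Function.Injective (fun F : Set ι => σ '' F) := image_injective.2 hinj
  constructor
  · rw [hCo, ncard_image_of_injective _ hinj2]
  · rw [hCo, finsum_mem_image hinj2.injOn]
    refine finsum_congr fun F => finsum_congr fun _ => ?_
    exact (ncard_image_of_injective F hinj).symm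

end Pool.Agent.R137.OP.C1x
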