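import Pool.Agent.R137.OP.Stm

open Filter Topology Set
open scoped BigOperators

namespace Pool.Agent.R137.OP.C2x

variable {ι : Type} [Fintype ι]

def Zx (x : ι → ℝ) : Set ι := {i | x i = 0}

def NN (K : Submodule ℝ (ι → ℝ)) (x : ι → ℝ) : Prop := x ∈ K ∧ ∀ i, 0 ≤ x i

omit [Fintype ι] in
theorem zs_iff (K : Submodule ℝ (ι → ℝ)) (A : Set ι) : A ∈ ZS K ↔ ∃ x, NN K x ∧ A = Zx x := by
  constructor
  · rintro ⟨x, h1, h2, h3⟩
    exact ⟨x, ⟨h1, h2⟩, h3⟩
  · rintro ⟨x, ⟨h1, h2⟩, h3⟩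
    exact ⟨x, h1, h2, h3⟩

omit [Fintype ι] in
theorem zx_univ (x : ι → ℝ) : Zx x = univ ↔ x = 0 := by
  constructor
  · intro h
    funext i
    have : i ∈ Zx x := by rw [h]; trivial
    exact this
  · rintro rfl
    ext i
    simp [Zx]

theorem sub_min (K : Submodule ℝ (ι → ℝ)) {x y : ι → ℝ} (hx : NN K x) (hy : NN K y)
    (hsub : Zx x ⊆ Zx y) (hy0 : y ≠ 0) :
    ∃ (c : ℝ) (i0 : ι), 0 < c ∧ NN K (x - c • y) ∧ Zx x ⊆ Zx (x - c • y) ∧ x i0 ≠ 0 ∧
      (x - c • y) i0 = 0 ∧ y i0 ≠ 0 := by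
  classical
  let S : Finset ι := Finset.univ.filter fun i => y i ≠ 0
  have hS : S.Nonempty := by
    by_contra h
    rw [Finset.not_nonempty_iff_eq_empty] at h
    apply hy0
    funext i
    by_contra hi
    have : i ∈ S := by simp only [S, Finset.mem_filter, Finset.mem_univ, true_and]; exact hi
    rw [h] at this
    exact absurd this (Finset.notMem_empty i)
  obtain ⟨i0, hi0, hmin⟩ := S.exists_min_image (fun i => x i / y i) hS
  have hyi0 : y i0 ≠ 0 := by simpa [S] using hi0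
  have hxi0 : x i0 ≠ 0 := fun h => hyi0 (hsub h)
  have hyp : 0 < y i0 := lt_of_le_of_ne (hy.2 i0) (Ne.symm hyi0)
  have hxp : 0 < x i0 := lt_of_le_of_ne (hx.2 i0) (Ne.symm hxi0)
  refine ⟨x i0 / y i0, i0, div_pos hxp hyp, ⟨?_, ?_⟩, ?_, hxi0, ?_, hyi0⟩
  · exact K.sub_mem hx.1 (K.smul_mem _ hy.1)
  · intro i
    simp only [Pi.sub_apply, Pi.smul_apply, smul_eq_mul]
    by_cases hi : y i = 0
    · rw [hi, mul_zero, sub_zero]; exact hx.2 i
    · have hyi : 0 < y i := lt_of_le_of_ne (hy.2 i) (Ne.symm hi)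
      have h1 := hmin i (by simp only [S, Finset.mem_filter, Finset.mem_univ, true_and]; exact hi)
      have h2 : x i0 / y i0 * y i ≤ x i / y i * y i := by gcongr
      rw [div_mul_cancel₀ _ hi] at h2
      linarith
  · intro i hi
    have h1 : x i = 0 := hi
    have h2 : y i = 0 := hsub hi
    simp only [Zx, mem_ofPred_eq, Pi.sub_apply, Pi.smul_apply, smul_eq_mul, h1, h2]
    ring
  · simp only [Pi.sub_apply, Pi.smul_apply, smul_eq_mul]
    rw [div_mul_cancel₀ _ hyi0, sub_self]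

theorem prop_of_co (K : Submodule ℝ (ι → ℝ)) {x y : ι → ℝ} (hx : NN K x)
    (hF : Zx x ∈ Co (ZS K)) (hy : NN K y) (hsub : Zx x ⊆ Zx y) : ∃ c : ℝ, 0 ≤ c ∧ y = c • x := by
  by_cases hy0 : y = 0
  · exact ⟨0, le_rfl, by rw [hy0]; simp⟩
  obtain ⟨c, i0, hc, hN, hs, hxi, hzi, hyi⟩ := sub_min K hx hy hsub hy0
  rcases hF.2.2 _ ((zs_iff K _).2 ⟨_, hN, rfl⟩) hs with h | h
  · exfalso
    have h1 : i0 ∈ Zx (x - c • y) := hzi
    rw [h] at h1
    exact hxi h1
  · have h1 := (zx_univ _).1 h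
    have h2 : x = c • y := sub_eq_zero.1 h1
    refine ⟨c⁻¹, (inv_pos.2 hc).le, ?_⟩
    rw [h2, smul_smul, inv_mul_cancel₀ hc.ne', one_smul]

theorem exists_co (K : Submodule ℝ (ι → ℝ)) {x : ι → ℝ} (hx : NN K x) (hx0 : x ≠ 0) :
    ∃ y, NN K y ∧ y ≠ 0 ∧ Zx y ∈ Co (ZS K) ∧ Zx x ⊆ Zx y := by
  let s : Set (Set ι) := {G | G ∈ ZS K ∧ G ≠ univ}
  have hs : s.Finite := Set.toFinite _
  have hxs : Zx x ∈ s := ⟨(zs_iff K _).2 ⟨x, hx, rfl⟩, fun h => hx0 ((zx_univ x).1 h)⟩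
  obtain ⟨M, hxM, hM⟩ := hs.exists_le_maximal hxs
  obtain ⟨y, hy, hyM⟩ := (zs_iff K _).1 hM.prop.1
  subst hyM
  refine ⟨y, hy, ?_, ⟨hM.prop.1, hM.prop.2, ?_⟩, hxM⟩
  · intro h
    exact hM.prop.2 ((zx_univ y).2 h)
  · intro G hG hsub
    by_cases hGu : G = univ
    · right; exact hGu
    · left
      exact (hM.eq_of_le (y := G) ⟨hG, hGu⟩ hsub).symm

theorem decomp (K : Submodule ℝ (ι → ℝ)) : ∀ (n : ℕ) (x : ι → ℝ), NN K x →
    (Finset.univ.filter fun i => x i ≠ 0).card ≤ n →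
    ∃ f : ι → ι → ℝ, (∀ j, NN K (f j)) ∧ (∀ j, f j = 0 ∨ Zx (f j) ∈ Co (ZS K)) ∧
      (∀ j, x j = 0 → f j = 0) ∧ ∑ j, f j = x := by
  classical
  intro n
  induction n with
  | zero =>
    intro x hx hc
    have hx0 : x = 0 := by
      funext i
      by_contra hi
      have h1 : i ∈ Finset.univ.filter fun i => x i ≠ 0 := by
        simp only [Finset.mem_filter, Finset.mem_univ, true_and]; exact hi
      have h2 := Finset.card_eq_zero.1 (Nat.le_zero.1 hc)
      rw [h2] at h1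
      exact absurd h1 (Finset.notMem_empty i)
    refine ⟨fun _ => 0, fun j => ⟨K.zero_mem, fun i => le_rfl⟩, fun j => Or.inl rfl,
      fun j _ => rfl, ?_⟩
    rw [hx0]; simp
  | succ n ih =>
    intro x hx hc
    by_cases hx0 : x = 0
    · refine ⟨fun _ => 0, fun j => ⟨K.zero_mem, fun i => le_rfl⟩, fun j => Or.inl rfl,
        fun j _ => rfl, ?_⟩
      rw [hx0]; simp
    obtain ⟨y, hy, hy0, hyC, hsub⟩ := exists_co K hx hx0
    obtain ⟨c, i0, hcp, hN, hs, hxi, hzi, hyi⟩ := sub_min K hx hy hsub hy0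
    have hcard : (Finset.univ.filter fun i => (x - c • y) i ≠ 0).card ≤ n := by
      have h1 : (Finset.univ.filter fun i => (x - c • y) i ≠ 0) ⊂
          Finset.univ.filter fun i => x i ≠ 0 := by
        rw [Finset.ssubset_iff_of_subset]
        · refine ⟨i0, ?_, ?_⟩
          · simp only [Finset.mem_filter, Finset.mem_univ, true_and]; exact hxi
          · simp only [Finset.mem_filter, Finset.mem_univ, true_and, not_not]; exact hzi
        · intro i hi
          simp only [Finset.mem_filter, Finset.mem_univ, true_and] at hi ⊢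
          intro h
          exact hi (hs h)
      have h2 := Finset.card_lt_card h1
      omega
    obtain ⟨f, hf1, hf2, hf3, hf4⟩ := ih _ hN hcard
    refine ⟨Function.update f i0 (c • y), ?_, ?_, ?_, ?_⟩
    · intro j
      by_cases hj : j = i0
      · subst hj
        rw [Function.update_self]
        exact ⟨K.smul_mem _ hy.1, fun i => mul_nonneg hcp.le (hy.2 i)⟩
      · rw [Function.update_of_ne hj]; exact hf1 j
    · intro j
      by_cases hj : j = i0
      · subst hj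
        rw [Function.update_self]
        right
        have : Zx (c • y) = Zx y := by
          ext i
          simp [Zx, hcp.ne']
        rw [this]; exact hyC
      · rw [Function.update_of_ne hj]; exact hf2 j
    · intro j hj
      have hj' : j ≠ i0 := by rintro rfl; exact hxi hj
      rw [Function.update_of_ne hj']
      exact hf3 j (hs hj)
    · have h1 : ∑ j, Function.update f i0 (c • y) j = ∑ j, f j - f i0 + c • y := by
        rw [Finset.sum_update_of_mem (Finset.mem_univ i0)]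
        rw [← Finset.sum_erase_eq_sub (Finset.mem_univ i0), Finset.sdiff_singleton_eq_erase]
        rw [add_comm]
      rw [h1, hf3 i0 hzi, hf4]
      simp

/-- `Co` determines `ZS` -/
theorem zs_of_co (K K' : Submodule ℝ (ι → ℝ)) (h : Co (ZS K) ⊆ Co (ZS K')) : ZS K ⊆ ZS K' := by
  classical
  intro G hG
  obtain ⟨x, hx, rfl⟩ := (zs_iff K _).1 hG
  obtain ⟨f, hf1, hf2, -, hf4⟩ := decomp K _ x hx le_rfl
  have hg : ∀ j, ∃ g : ι → ℝ, NN K' g ∧ Zx g = Zx (f j) := by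
    intro j
    rcases hf2 j with h0 | h0
    · exact ⟨0, ⟨K'.zero_mem, fun i => le_rfl⟩, by rw [h0]⟩
    · obtain ⟨g, hg, hg2⟩ := (zs_iff K' _).1 (h h0).1
      exact ⟨g, hg, hg2.symm⟩
  choose g hg1 hg2 using hg
  refine (zs_iff K' _).2 ⟨∑ j, g j, ⟨K'.sum_mem fun j _ => (hg1 j).1, fun i => ?_⟩, ?_⟩
  · rw [Finset.sum_apply]
    exact Finset.sum_nonneg fun j _ => (hg1 j).2 i
  · rw [← hf4]
    ext i
    simp only [Zx, mem_ofPred_eq, Finset.sum_apply]
    rw [Finset.sum_eq_zero_iff_of_nonneg (fun j _ => (hf1 j).2 i),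
      Finset.sum_eq_zero_iff_of_nonneg (fun j _ => (hg1 j).2 i)]
    have : ∀ j, f j i = 0 ↔ g j i = 0 := by
      intro j
      have h1 := hg2 j
      have h2 : i ∈ Zx (g j) ↔ i ∈ Zx (f j) := by rw [h1]
      exact h2.symm
    constructor
    · intro h j hj; exact (this j).1 (h j hj)
    · intro h j hj; exact (this j).2 (h j hj)

/-- the key limit statement -/
theorem approx (K0 : Submodule ℝ (ι → ℝ)) (K : ℕ → Submodule ℝ (ι → ℝ)) (hCl : Cl K K0)
    (hLs : Ls K K0) (h1K : ∀ m, (fun _ => (1 : ℝ)) ∈ K m) {s0 : ι → ℝ} (hs0 : NN K0 s0)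
    (hF : Zx s0 ∈ Co (ZS K0)) (hsum : ∑ i, s0 i = 1) (ε : ℝ) (hε : 0 < ε) :
    ∀ᶠ m in atTop, ∃ s, NN (K m) s ∧ Zx s ∈ Co (ZS (K m)) ∧ ∑ i, s i = 1 ∧ dist s s0 < ε := by
  classical
  by_contra hcon
  rw [Filter.not_eventually] at hcon
  obtain ⟨φ, hφ, hφ2⟩ := Filter.extraction_of_frequently_atTop hcon
  obtain ⟨x, hxK, hxt⟩ := hLs s0 hs0.1
  -- make nonnegative
  let δ : ℕ → ℝ := fun m => ∑ i, |x m i - s0 i|
  have hδ : Tendsto δ atTop (𝓝 0) := by
    have : Tendsto (fun m => ∑ i, |x m i - s0 i|) atTop (𝓝 (∑ i : ι, |s0 i - s0 i|)) := by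
      refine tendsto_finsetSum _ fun i _ => ?_
      exact ((tendsto_pi_nhds.1 hxt i).sub_const _).abs
    simpa using this
  let z : ℕ → ι → ℝ := fun m => x m + δ m • (fun _ => (1 : ℝ))
  have hzt : Tendsto z atTop (𝓝 s0) := by
    have : Tendsto z atTop (𝓝 (s0 + (0 : ℝ) • (fun _ => (1 : ℝ)))) :=
      hxt.add (hδ.smul_const _)
    simpa using this
  have hzN : ∀ m, NN (K m) (z m) := by
    intro m
    refine ⟨(K m).add_mem (hxK m) ((K m).smul_mem _ (h1K m)), fun i => ?_⟩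
    simp only [z, Pi.add_apply, Pi.smul_apply, smul_eq_mul, mul_one]
    have h1 : |x m i - s0 i| ≤ δ m :=
      Finset.single_le_sum (f := fun i => |x m i - s0 i|) (fun i _ => abs_nonneg _)
        (Finset.mem_univ i)
    have h2 := neg_abs_le (x m i - s0 i)
    have h3 := hs0.2 i
    linarith
  have hdec := fun m => decomp (K m) _ (z m) (hzN m) le_rfl
  choose f hf1 hf2 hf3 hf4 using hdec
  have hfz : ∀ m j i, f m j i ≤ z m i := by
    intro m j i
    have : z m i = ∑ j, f m j i := by rw [← hf4 m, Finset.sum_apply]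
    rw [this]
    exact Finset.single_le_sum (f := fun j => f m j i) (fun j _ => (hf1 m j).2 i)
      (Finset.mem_univ j)
  -- bound
  obtain ⟨C, hC⟩ : ∃ C, ∀ m i, z m i ≤ C := by
    have hb := (Metric.isBounded_range_of_tendsto z hzt)
    obtain ⟨C, hC⟩ := hb.exists_norm_le
    exact ⟨C, fun m i => (le_abs_self _).trans ((norm_le_pi_norm (z m) i).trans
      (hC _ (mem_range_self m)))⟩
  have hcomp : IsCompact (Set.pi univ fun _ : ι => Set.pi univ fun _ : ι => Icc (0 : ℝ) C) :=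
    isCompact_univ_pi fun _ => isCompact_univ_pi fun _ => isCompact_Icc
  have hfmem : ∀ k, f (φ k) ∈ Set.pi univ fun _ : ι => Set.pi univ fun _ : ι => Icc (0 : ℝ) C :=
    fun k j _ i _ => ⟨(hf1 _ j).2 i, (hfz _ j i).trans (hC _ i)⟩
  obtain ⟨g, -, ψ, hψ, hlim⟩ := hcomp.tendsto_subseq hfmem
  have hφψ : StrictMono (φ ∘ ψ) := hφ.comp hψ
  have hlim' : ∀ j, Tendsto (fun k => f (φ (ψ k)) j) atTop (𝓝 (g j)) :=
    fun j => (tendsto_pi_nhds.1 hlim j)
  have hgK : ∀ j, NN K0 (g j) := by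
    intro j
    refine ⟨hCl (φ ∘ ψ) hφψ (fun k => f (φ (ψ k)) j) (g j) (fun k => (hf1 _ j).1) (hlim' j), ?_⟩
    intro i
    exact ge_of_tendsto' (tendsto_pi_nhds.1 (hlim' j) i) (fun k => (hf1 _ j).2 i)
  have hgs : ∑ j, g j = s0 := by
    have h1 : Tendsto (fun k => ∑ j, f (φ (ψ k)) j) atTop (𝓝 (∑ j, g j)) :=
      tendsto_finsetSum _ fun j _ => hlim' j
    have h2 : Tendsto (fun k => z (φ (ψ k))) atTop (𝓝 s0) := hzt.comp hφψ.tendsto_atTop
    refine tendsto_nhds_unique (h1.congr fun k => ?_) h2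
    exact hf4 _
  have hgle : ∀ j, Zx s0 ⊆ Zx (g j) := by
    intro j i hi
    have h1 : ∑ j, g j i = 0 := by
      have : s0 i = 0 := hi
      rw [← hgs, Finset.sum_apply] at this
      exact this
    exact (Finset.sum_eq_zero_iff_of_nonneg (fun j _ => (hgK j).2 i)).1 h1 j (Finset.mem_univ j)
  have hprop := fun j => prop_of_co K0 hs0 hF (hgK j) (hgle j)
  choose c hc0 hc using hprop
  have hcpos : ∃ j, 0 < c j := by
    by_contra hno
    push Not at hno
    have h0 : ∀ j, c j = 0 := fun j => le_antisymm (hno j) (hc0 j)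
    have h1 : s0 = 0 := by
      rw [← hgs]
      exact Finset.sum_eq_zero fun j _ => by rw [hc, h0, zero_smul]
    rw [h1] at hsum
    simp at hsum
  obtain ⟨j, hj⟩ := hcpos
  have hsumlim : Tendsto (fun k => ∑ i, f (φ (ψ k)) j i) atTop (𝓝 (c j)) := by
    have h1 : Tendsto (fun k => ∑ i, f (φ (ψ k)) j i) atTop (𝓝 (∑ i, g j i)) :=
      tendsto_finsetSum _ fun i _ => tendsto_pi_nhds.1 (hlim' j) i
    have h2 : ∑ i, g j i = c j := by
      rw [hc j]
      simp only [Pi.smul_apply, smul_eq_mul]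
      rw [← Finset.mul_sum, hsum, mul_one]
    rwa [h2] at h1
  have hnlim : Tendsto (fun k => (∑ i, f (φ (ψ k)) j i)⁻¹ • f (φ (ψ k)) j) atTop (𝓝 s0) := by
    have h1 := (hsumlim.inv₀ hj.ne').smul (hlim' j)
    have h2 : (c j)⁻¹ • g j = s0 := by
      rw [hc j, smul_smul, inv_mul_cancel₀ hj.ne', one_smul]
    rwa [h2] at h1
  have hev1 : ∀ᶠ k in atTop, 0 < ∑ i, f (φ (ψ k)) j i := hsumlim.eventually (lt_mem_nhds hj)
  have hev2 : ∀ᶠ k in atTop,
      dist ((∑ i, f (φ (ψ k)) j i)⁻¹ • f (φ (ψ k)) j) s0 < ε :=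
    (Metric.tendsto_nhds.1 hnlim) ε hε
  obtain ⟨k, hk1, hk2⟩ := (hev1.and hev2).exists
  apply hφ2 (ψ k)
  have hpos := inv_pos.2 hk1
  refine ⟨(∑ i, f (φ (ψ k)) j i)⁻¹ • f (φ (ψ k)) j,
    ⟨(K _).smul_mem _ (hf1 _ j).1, fun i => mul_nonneg hpos.le ((hf1 _ j).2 i)⟩, ?_, ?_, hk2⟩
  · have hZ : Zx ((∑ i, f (φ (ψ k)) j i)⁻¹ • f (φ (ψ k)) j) = Zx (f (φ (ψ k)) j) := by
      ext i
      simp only [Zx, mem_ofPred_eq, Pi.smul_apply, smul_eq_mul, mul_eq_zero, hpos.ne', false_or]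
    rw [hZ]
    rcases hf2 (φ (ψ k)) j with h0 | h0
    · exfalso
      rw [h0] at hk1
      simp at hk1
    · exact h0
  · simp only [Pi.smul_apply, smul_eq_mul]
    rw [← Finset.mul_sum, inv_mul_cancel₀ hk1.ne']

theorem main : S_CNT2 := by
  intro ι _ K0 K hCl hLs h10 h1K
  classical
  have hch : ∀ F : Set ι, ∃ s : ι → ℝ, F ∈ Co (ZS K0) → NN K0 s ∧ Zx s = F ∧ ∑ i, s i = 1 := by
    intro F
    by_cases hF : F ∈ Co (ZS K0)
    · obtain ⟨x, hx, hxF⟩ := (zs_iff K0 F).1 hF.1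
      have hx0 : x ≠ 0 := by
        intro h
        apply hF.2.1
        rw [hxF]
        exact (zx_univ x).2 h
      have hpos : 0 < ∑ i, x i := by
        refine lt_of_le_of_ne (Finset.sum_nonneg fun i _ => hx.2 i) ?_
        intro h
        apply hx0
        funext i
        exact (Finset.sum_eq_zero_iff_of_nonneg (fun i _ => hx.2 i)).1 h.symm i (Finset.mem_univ i)
      have hp := inv_pos.2 hpos
      refine ⟨(∑ i, x i)⁻¹ • x, fun _ => ⟨⟨K0.smul_mem _ hx.1, fun i => mul_nonneg hp.le (hx.2 i)⟩,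
        ?_, ?_⟩⟩
      · rw [hxF]
        ext i
        simp only [Zx, mem_ofPred_eq, Pi.smul_apply, smul_eq_mul, mul_eq_zero, hp.ne', false_or]
      · simp only [Pi.smul_apply, smul_eq_mul]
        rw [← Finset.mul_sum, inv_mul_cancel₀ hpos.ne']
    · exact ⟨0, fun h => absurd h hF⟩
  choose s0 hs0 using hch
  have e1 : ∀ᶠ ε in 𝓝[>] (0 : ℝ), ∀ (F : Set ι) (i : ι), F ∈ Co (ZS K0) → i ∉ F → ε ≤ s0 F i := by
    rw [eventually_all]
    intro F
    rw [eventually_all]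
    intro i
    by_cases h : F ∈ Co (ZS K0) ∧ i ∉ F
    · have hp : 0 < s0 F i := by
        refine lt_of_le_of_ne ((hs0 F h.1).1.2 i) ?_
        intro h0
        apply h.2
        rw [← (hs0 F h.1).2.1]
        exact h0.symm
      filter_upwards [Ioo_mem_nhdsGT hp] with ε hε _ _
      exact hε.2.le
    · exact Filter.Eventually.of_forall fun ε h1 h2 => absurd ⟨h1, h2⟩ h
  have e2 : ∀ᶠ ε in 𝓝[>] (0 : ℝ), ∀ (F F' : Set ι), F ∈ Co (ZS K0) → F' ∈ Co (ZS K0) →
      F ≠ F' → ε ≤ dist (s0 F) (s0 F') / 2 := by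
    rw [eventually_all]
    intro F
    rw [eventually_all]
    intro F'
    by_cases h : F ∈ Co (ZS K0) ∧ F' ∈ Co (ZS K0) ∧ F ≠ F'
    · have hp : 0 < dist (s0 F) (s0 F') / 2 := by
        apply half_pos
        rw [dist_pos]
        intro h0
        apply h.2.2
        rw [← (hs0 F h.1).2.1, ← (hs0 F' h.2.1).2.1, h0]
      filter_upwards [Ioo_mem_nhdsGT hp] with ε hε _ _ _
      exact hε.2.le
    · exact Filter.Eventually.of_forall fun ε h1 h2 h3 => absurd ⟨h1, h2, h3⟩ h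
  obtain ⟨ε, hε1, hε2, hε⟩ := (e1.and (e2.and self_mem_nhdsWithin)).exists
  have hεp : 0 < ε := hε
  have hev : ∀ᶠ m in atTop, ∀ F : Set ι, F ∈ Co (ZS K0) → ∃ s, NN (K m) s ∧
      Zx s ∈ Co (ZS (K m)) ∧ ∑ i, s i = 1 ∧ dist s (s0 F) < ε := by
    rw [eventually_all]
    intro F
    by_cases hF : F ∈ Co (ZS K0)
    · have hFF := hs0 F hF
      have := approx K0 K hCl hLs h1K hFF.1 (by rw [hFF.2.1]; exact hF) hFF.2.2 ε hεp
      exact this.mono fun m h _ => h
    · exact Filter.Eventually.of_forall fun m h => absurd h hF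
  filter_upwards [hev] with m hm hc1 hc2
  choose! s hs1 hs2 hs3 hs4 using hm
  have hsub : ∀ F ∈ Co (ZS K0), Zx (s F) ⊆ F := by
    intro F hF i hi
    by_contra hiF
    have h1 := hε1 F i hF hiF
    have h2 : dist (s F i) (s0 F i) < ε := (dist_le_pi_dist (s F) (s0 F) i).trans_lt (hs4 F hF)
    have h3 : s F i = 0 := hi
    rw [h3, Real.dist_eq, zero_sub, abs_neg] at h2
    have h4 := le_abs_self (s0 F i)
    linarith
  have hinj : InjOn (fun F => Zx (s F)) (Co (ZS K0)) := by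
    intro F hF F' hF' hFF
    have hFF' : Zx (s F) = Zx (s F') := hFF
    obtain ⟨c, -, hc⟩ := prop_of_co (K m) (hs1 F hF) (hs2 F hF) (hs1 F' hF') hFF'.subset
    have h1 : c = 1 := by
      have h2 := hs3 F' hF'
      rw [hc] at h2
      simp only [Pi.smul_apply, smul_eq_mul] at h2
      rw [← Finset.mul_sum, hs3 F hF, mul_one] at h2
      exact h2
    rw [h1, one_smul] at hc
    by_contra hne
    have h2 := hε2 F F' hF hF' hne
    have h3 := hs4 F hF
    have h4 := hs4 F' hF'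
    rw [hc] at h4
    have h5 := dist_triangle_left (s0 F) (s0 F') (s F)
    linarith
  have himg : (fun F => Zx (s F)) '' Co (ZS K0) = Co (ZS (K m)) := by
    refine Set.eq_of_subset_of_ncard_le ?_ ?_ (Set.toFinite _)
    · rintro _ ⟨F, hF, rfl⟩
      exact hs2 F hF
    · rw [hinj.ncard_image, hc1]
  have hfs : ∑ᶠ F ∈ Co (ZS K0), (Zx (s F)).ncard = ∑ᶠ F ∈ Co (ZS K0), F.ncard := by
    rw [← hc2, ← himg, finsum_mem_image hinj]
  have heq : ∀ F ∈ Co (ZS K0), Zx (s F) = F := by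
    have hfin : (Co (ZS K0)).Finite := Set.toFinite _
    rw [finsum_mem_eq_finite_toFinset_sum _ hfin, finsum_mem_eq_finite_toFinset_sum _ hfin] at hfs
    have h1 := (Finset.sum_eq_sum_iff_of_le (s := hfin.toFinset)
      (f := fun F => (Zx (s F)).ncard) (g := fun F => F.ncard)
      (fun F hF => Set.ncard_le_ncard (hsub F (hfin.mem_toFinset.1 hF)) (Set.toFinite _))).1 hfs
    intro F hF
    exact Set.eq_of_subset_of_ncard_le (hsub F hF) (h1 F (hfin.mem_toFinset.2 hF)).ge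
      (Set.toFinite _)
  have hCo : Co (ZS (K m)) = Co (ZS K0) := by
    rw [← himg]
    ext G
    constructor
    · rintro ⟨F, hF, rfl⟩
      change Zx (s F) ∈ _
      rw [heq F hF]; exact hF
    · intro hG
      exact ⟨G, hG, heq G hG⟩
  exact Subset.antisymm (zs_of_co _ _ hCo.subset) (zs_of_co _ _ hCo.symm.subset)

end Pool.Agent.R137.OP.C2x
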