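import Pool.Agent.R137.OP.Stm

/-!
# Persistence of supports for moving cones (piece F1)
-/

set_option autoImplicit false

namespace Pool.Agent.R137.OP.F1x

open Filter Topology Set
open scoped BigOperators

variable {κ : Type} [Fintype κ]

/-- `s` is the support of a nonnegative element of `K` -/
def Su (K : Submodule ℝ (κ → ℝ)) (s : Set κ) : Prop :=
  ∃ x ∈ K, (∀ k, 0 ≤ x k) ∧ {k | x k ≠ 0} = s

/-- minimal nonempty supports -/
def Mi (K : Submodule ℝ (κ → ℝ)) (s : Set κ) : Prop :=
  Su K s ∧ s.Nonempty ∧ ∀ s', Su K s' → s'.Nonempty → s' ⊆ s → s' = s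

omit [Fintype κ] in
theorem su_empty (K : Submodule ℝ (κ → ℝ)) : Su K ∅ :=
  ⟨0, K.zero_mem, fun _ => le_rfl, by ext k; simp⟩

omit [Fintype κ] in
theorem su_union {K : Submodule ℝ (κ → ℝ)} {s s' : Set κ} (h : Su K s) (h' : Su K s') :
    Su K (s ∪ s') := by
  obtain ⟨x, hx, hx0, rfl⟩ := h
  obtain ⟨y, hy, hy0, rfl⟩ := h'
  refine ⟨x + y, K.add_mem hx hy, fun k => add_nonneg (hx0 k) (hy0 k), ?_⟩
  ext k
  simp only [Pi.add_apply, mem_setOf_eq, mem_union]
  constructor
  · intro h
    by_contra hc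
    push Not at hc
    exact h (by rw [hc.1, hc.2, add_zero])
  · rintro (h | h) h2
    · have h3 : 0 < x k := lt_of_le_of_ne (hx0 k) (Ne.symm h)
      have h4 := hy0 k
      linarith
    · have h3 : 0 < y k := lt_of_le_of_ne (hy0 k) (Ne.symm h)
      have h4 := hx0 k
      linarith

theorem su_decomp {K : Submodule ℝ (κ → ℝ)} : ∀ (n : ℕ) (s : Set κ), s.ncard ≤ n → Su K s →
    ∀ k ∈ s, ∃ s', Mi K s' ∧ s' ⊆ s ∧ k ∈ s' := by
  intro n
  induction n with
  | zero =>
    intro s hs _ k hk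
    exact absurd hk (by
      rw [(Set.ncard_eq_zero (Set.toFinite s)).1 (Nat.le_zero.1 hs)]
      exact fun h => h)
  | succ n ih =>
    intro s hs hsu k hk
    by_cases hmin : ∀ s', Su K s' → s'.Nonempty → s' ⊆ s → s' = s
    · exact ⟨s, ⟨hsu, ⟨k, hk⟩, hmin⟩, le_rfl, hk⟩
    push Not at hmin
    obtain ⟨s', hsu', hne', hsub, hneq⟩ := hmin
    have hsu2 := hsu'
    obtain ⟨x, hx, hx0, hxs⟩ := hsu
    obtain ⟨y, hy, hy0, hys⟩ := hsu'
    have hlt : s'.ncard < s.ncard :=
      Set.ncard_lt_ncard (lt_of_le_of_ne hsub hneq) (Set.toFinite s)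
    by_cases hk' : k ∈ s'
    · obtain ⟨t, ht, hts, hkt⟩ := ih s' (by omega) hsu2 k hk'
      exact ⟨t, ht, hts.trans hsub, hkt⟩
    -- subtract a multiple of `y`
    obtain ⟨i, hi, hmin⟩ := Set.exists_min_image s' (fun i => x i / y i) (Set.toFinite s') hne'
    have hypos : ∀ j ∈ s', 0 < y j := by
      intro j hj
      rw [← hys] at hj
      exact lt_of_le_of_ne (hy0 j) (Ne.symm hj)
    have hyz : ∀ j, j ∉ s' → y j = 0 := by
      intro j hj
      by_contra hc
      exact hj (by rw [← hys]; exact hc)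
    set c : ℝ := x i / y i with hc
    have hz : Su K {k | (x - c • y) k ≠ 0} := by
      refine ⟨x - c • y, K.sub_mem hx (K.smul_mem c hy), ?_, rfl⟩
      intro j
      simp only [Pi.sub_apply, Pi.smul_apply, smul_eq_mul]
      by_cases hj : j ∈ s'
      · have h1 := hmin j hj
        have h2 := hypos j hj
        have h3 : c * y j ≤ x j := by
          have := (le_div_iff₀ h2).1 h1
          exact this
        linarith
      · rw [hyz j hj, mul_zero, sub_zero]
        exact hx0 j
    have hsubz : {k | (x - c • y) k ≠ 0} ⊆ s := by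
      intro j hj
      by_contra hjs
      apply hj
      have h1 : x j = 0 := by
        by_contra h
        exact hjs (by rw [← hxs]; exact h)
      simp [h1, hyz j (fun h => hjs (hsub h))]
    have hiz : i ∉ {k | (x - c • y) k ≠ 0} := by
      intro h
      apply h
      simp only [Pi.sub_apply, Pi.smul_apply, smul_eq_mul, hc]
      rw [div_mul_cancel₀ _ (hypos i hi).ne', sub_self]
    have hlt2 : {k | (x - c • y) k ≠ 0}.ncard < s.ncard := by
      refine Set.ncard_lt_ncard (lt_of_le_of_ne hsubz ?_) (Set.toFinite s)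
      intro h
      exact hiz (h ▸ hsub hi)
    have hkz : k ∈ {k | (x - c • y) k ≠ 0} := by
      simp only [mem_setOf_eq, Pi.sub_apply, Pi.smul_apply, smul_eq_mul, hyz k hk', mul_zero,
        sub_zero]
      rw [← hxs] at hk
      exact hk
    obtain ⟨t, ht, hts, hkt⟩ := ih _ (by omega) hz k hkz
    exact ⟨t, ht, hts.trans hsubz, hkt⟩

theorem su_of_mi {K K' : Submodule ℝ (κ → ℝ)} (h : ∀ s, Mi K s → Su K' s) (s : Set κ)
    (hs : Su K s) : Su K' s := by
  classical
  have key : ∀ T : Finset κ, (∀ k ∈ T, k ∈ s) →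
      ∃ s', Su K' s' ∧ s' ⊆ s ∧ ∀ k ∈ T, k ∈ s' := by
    intro T
    induction T using Finset.induction_on with
    | empty => exact fun _ => ⟨∅, su_empty K', empty_subset _, by simp⟩
    | insert a T ha ih =>
      intro hT
      obtain ⟨s1, h1, h2, h3⟩ := ih fun k hk => hT k (Finset.mem_insert_of_mem hk)
      obtain ⟨s2, h4, h5, h6⟩ := su_decomp s.ncard s le_rfl hs a (hT a (Finset.mem_insert_self _ _))
      refine ⟨s1 ∪ s2, su_union h1 (h s2 h4), union_subset h2 h5, ?_⟩
      intro k hk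
      rcases Finset.mem_insert.1 hk with rfl | hk
      · exact Or.inr h6
      · exact Or.inl (h3 k hk)
  obtain ⟨s', h1, h2, h3⟩ := key (Set.toFinite s).toFinset (fun k hk => by simpa using hk)
  have : s' = s := Set.Subset.antisymm h2 fun k hk => h3 k (by simpa using hk)
  exact this ▸ h1

omit [Fintype κ] in
theorem mem_ZS_iff {K : Submodule ℝ (κ → ℝ)} {A : Set κ} : A ∈ ZS K ↔ Su K Aᶜ := by
  constructor
  · rintro ⟨x, hx, hx0, rfl⟩
    exact ⟨x, hx, hx0, rfl⟩
  · rintro ⟨x, hx, hx0, h⟩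
    refine ⟨x, hx, hx0, ?_⟩
    ext k
    have := Set.ext_iff.1 h k
    simp only [mem_setOf_eq, mem_compl_iff, ne_eq, not_iff_not] at this
    exact this.symm

theorem main : S_CONE := by
  intro κ _ K0 K hCl hP
  classical
  have hA : ∀ᶠ t in 𝓝 (0 : ℝ), ∀ s, Mi K0 s → Su (K t) s := by
    rw [Filter.eventually_all]
    intro s
    by_cases hs : Mi K0 s
    · obtain ⟨⟨x, hx, hx0, hxs⟩, hne, hmin⟩ := hs
      have hx1 : x ≠ 0 := by
        rintro rfl
        obtain ⟨k, hk⟩ := hne
        rw [← hxs] at hk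
        exact hk rfl
      have h1 := hP x hx hx0 hx1 (fun y hy hy0 hy1 hyx => by
        rw [hxs] at hyx ⊢
        refine hmin _ ⟨y, hy, hy0, rfl⟩ ?_ hyx
        by_contra hc
        rw [Set.not_nonempty_iff_eq_empty] at hc
        apply hy1
        funext k
        by_contra hk
        have : k ∈ ({k | y k ≠ 0} : Set κ) := hk
        rw [hc] at this
        exact this)
      filter_upwards [h1] with t ht _
      obtain ⟨y, hy, hy0, hys⟩ := ht
      exact ⟨y, hy, hy0, hys.trans hxs⟩
    · exact Eventually.of_forall fun t h => absurd h hs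
  have hB : ∀ᶠ t in 𝓝 (0 : ℝ), ∀ s, Mi (K t) s → Su K0 s := by
    rw [Filter.eventually_all]
    intro s
    by_contra hcon
    rw [Filter.not_eventually] at hcon
    have hfr := hcon.and_eventually hA
    obtain ⟨τ, hτ, hp⟩ := Filter.exists_seq_forall_of_frequently hfr
    have hns : ¬ Su K0 s := by
      have := (hp 0).1
      tauto
    have hmi : ∀ m, Mi (K (τ m)) s := by
      intro m
      have := (hp m).1
      tauto
    choose x hx hx0 hxs using fun m => (hmi m).1
    have hsum : ∀ m, 0 < ∑ k, x m k := by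
      intro m
      obtain ⟨k, hk⟩ := (hmi m).2.1
      rw [← hxs m] at hk
      exact Finset.sum_pos' (fun k _ => hx0 m k)
        ⟨k, Finset.mem_univ k, lt_of_le_of_ne (hx0 m k) (Ne.symm hk)⟩
    set z : ℕ → κ → ℝ := fun m => (∑ k, x m k)⁻¹ • x m with hz
    have hzs : ∀ m, z m ∈ stdSimplex ℝ κ := by
      intro m
      refine ⟨fun k => ?_, ?_⟩
      · simp only [hz, Pi.smul_apply, smul_eq_mul]
        exact mul_nonneg (inv_nonneg.2 (hsum m).le) (hx0 m k)
      · simp only [hz, Pi.smul_apply, smul_eq_mul]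
        rw [← Finset.mul_sum]
        exact inv_mul_cancel₀ (hsum m).ne'
    obtain ⟨y, hy, φ, hφ, hlim⟩ := (isCompact_stdSimplex ℝ κ).tendsto_subseq hzs
    have hyK : y ∈ K0 := hCl (τ ∘ φ) (z ∘ φ) y (hτ.comp hφ.tendsto_atTop)
      (fun m => (K (τ (φ m))).smul_mem _ (hx (φ m))) hlim
    have hysub : {k | y k ≠ 0} ⊆ s := by
      intro k hk
      by_contra hks
      apply hk
      have h1 : Tendsto (fun m => (z ∘ φ) m k) atTop (𝓝 (y k)) :=
        ((continuous_apply k).tendsto y).comp hlim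
      have h2 : (fun m => (z ∘ φ) m k) = fun _ => (0 : ℝ) := by
        funext m
        have h3 : x (φ m) k = 0 := by
          by_contra h
          exact hks (by rw [← hxs (φ m)]; exact h)
        simp [hz, h3]
      rw [h2] at h1
      exact tendsto_nhds_unique h1 tendsto_const_nhds
    obtain ⟨k, hk⟩ : ∃ k, y k ≠ 0 := by
      by_contra hc
      push Not at hc
      have := hy.2
      simp [hc] at this
    obtain ⟨s0, hs0, hs1, _⟩ := su_decomp _ {k | y k ≠ 0} le_rfl ⟨y, hyK, hy.1, rfl⟩ k hk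
    have h5 := (hmi 0).2.2 s0 ((hp 0).2 s0 hs0) hs0.2.1 (hs1.trans hysub)
    exact hns (h5 ▸ hs0.1)
  filter_upwards [hA, hB] with t h1 h2
  ext A
  rw [mem_ZS_iff, mem_ZS_iff]
  exact ⟨su_of_mi h2 _, su_of_mi h1 _⟩

end Pool.Agent.R137.OP.F1x
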