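import Pool.Agent.R137.OP.Stm

/-! # Piece E of project OP: the two descriptions of the labelled face structure -/

set_option autoImplicit false

namespace Pool.Agent.R137.OP.Ex

open Pool.Agent.R137.OP

theorem sum_zero_iff {n : ℕ} {S : Fin n → Fin n → ℝ} (h : ∀ i j, 0 ≤ S i j)
    (π : Equiv.Perm (Fin n)) : ∑ i, S i (π i) = 0 ↔ π ∈ ZP S := by
  rw [Finset.sum_eq_zero_iff_of_nonneg (fun i _ => h i (π i))]
  constructor
  · intro h1 i
    exact h1 i (Finset.mem_univ i)
  · intro h1 i _
    exact h1 i

theorem main (hD : S_DUAL) : S_FSFG := by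
  intro n d hn X g hG
  obtain ⟨hg1, hg2, hg3⟩ := hG
  have hn0 : (n : ℝ) ≠ 0 := by
    have : n ≠ 0 := by omega
    exact_mod_cast this
  have hnpos : (0 : ℝ) < n := by exact_mod_cast (by omega : 0 < n)
  apply Set.Subset.antisymm
  · rintro A ⟨Y, u, hle, rfl⟩
    have hC : ∀ π : Equiv.Perm (Fin n),
        ∑ i, (u / n - ∑ a, Y i a * X (π i) a) = u - ∑ i, ∑ a, Y i a * X (π i) a := by
      intro π
      rw [Finset.sum_sub_distrib, Finset.sum_const, Finset.card_univ, Fintype.card_fin,
        nsmul_eq_mul, mul_div_cancel₀ _ hn0]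
    obtain ⟨a, b, hab, h0⟩ := hD n (fun i j => u / n - ∑ c, Y i c * X j c) (by
      intro π
      show 0 ≤ ∑ i, (u / n - ∑ a, Y i a * X (π i) a)
      rw [hC π]
      linarith [hle π])
    set e : ℝ := (∑ i, a i + ∑ j, b j) / n with he
    have he0 : 0 ≤ e := div_nonneg h0 hnpos.le
    have hne : (n : ℝ) * e = ∑ i, a i + ∑ j, b j := by
      rw [he]
      field_simp
    let S : Fin n → Fin n → ℝ := fun i j => (u / n - ∑ c, Y i c * X j c) - a i - b j + e
    have hS0 : ∀ i j, 0 ≤ S i j := by
      intro i j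
      have h1 := hab i j
      show 0 ≤ (u / n - ∑ c, Y i c * X j c) - a i - b j + e
      linarith
    have hrow : ∀ i c, ∑ j, S i j * g j c = - ∑ j, b j * g j c := by
      intro i c
      have h1 : ∀ j, S i j * g j c = (u / n - a i + e) * g j c -
          ∑ k, Y i k * (X j k * g j c) - b j * g j c := by
        intro j
        show ((u / n - ∑ c, Y i c * X j c) - a i - b j + e) * g j c = _
        have h2 : ∑ k, Y i k * (X j k * g j c) = (∑ k, Y i k * X j k) * g j c := by
          rw [Finset.sum_mul]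
          exact Finset.sum_congr rfl fun k _ => by ring
        rw [h2]
        ring
      rw [Finset.sum_congr rfl fun j _ => h1 j, Finset.sum_sub_distrib, Finset.sum_sub_distrib,
        ← Finset.mul_sum, hg1 c, Finset.sum_comm]
      have h3 : ∑ k, ∑ j, Y i k * (X j k * g j c) = 0 := by
        apply Finset.sum_eq_zero
        intro k _
        rw [← Finset.mul_sum, hg2 k c, mul_zero]
      rw [h3]
      ring
    refine ⟨S, ⟨hS0, fun i i' c => by rw [hrow, hrow]⟩, ?_⟩
    ext π
    have hsum : ∑ i, S i (π i) = u - ∑ i, ∑ c, Y i c * X (π i) c := by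
      have h1 : ∀ i, S i (π i) = (u / n - ∑ c, Y i c * X (π i) c) - a i - b (π i) + e :=
        fun i => rfl
      rw [Finset.sum_congr rfl fun i _ => h1 i, Finset.sum_add_distrib, Finset.sum_sub_distrib,
        Finset.sum_sub_distrib, hC π, Equiv.sum_comp π b, Finset.sum_const, Finset.card_univ,
        Fintype.card_fin, nsmul_eq_mul, hne]
      ring
    rw [← sum_zero_iff hS0 π, hsum]
    show (∑ i, ∑ a, Y i a * X (π i) a = u) ↔ _
    constructor
    · intro h; rw [h]; ring
    · intro h; linarith
  · rintro A ⟨S, ⟨hS0, hSr⟩, rfl⟩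
    let i0 : Fin n := ⟨0, by omega⟩
    have hz : ∀ i, ∃ (v : ℝ) (y : Fin d → ℝ), ∀ j, S i j - S i0 j = v + ∑ a, y a * X j a := by
      intro i
      apply hg3 (fun j => S i j - S i0 j)
      intro c
      have h1 : ∑ j, (S i j - S i0 j) * g j c = ∑ j, S i j * g j c - ∑ j, S i0 j * g j c := by
        rw [← Finset.sum_sub_distrib]
        exact Finset.sum_congr rfl fun j _ => by ring
      rw [h1, hSr i i0 c, sub_self]
    choose v y hvy using hz
    have key : ∀ π : Equiv.Perm (Fin n), ∑ i, S i (π i) =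
        (∑ j, S i0 j + ∑ i, v i) - ∑ i, ∑ a, (-(y i a)) * X (π i) a := by
      intro π
      have h1 : ∀ i, S i (π i) = S i0 (π i) + v i - ∑ a, (-(y i a)) * X (π i) a := by
        intro i
        have h2 := hvy i (π i)
        have h3 : ∑ a, (-(y i a)) * X (π i) a = - ∑ a, y i a * X (π i) a := by
          rw [← Finset.sum_neg_distrib]
          exact Finset.sum_congr rfl fun a _ => by ring
        rw [h3]
        linarith
      rw [Finset.sum_congr rfl fun i _ => h1 i, Finset.sum_sub_distrib, Finset.sum_add_distrib,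
        Equiv.sum_comp π (fun j => S i0 j)]
    refine ⟨fun i a => -(y i a), ∑ j, S i0 j + ∑ i, v i, ?_, ?_⟩
    · intro π
      have h1 : 0 ≤ ∑ i, S i (π i) := Finset.sum_nonneg fun i _ => hS0 i (π i)
      rw [key π] at h1
      linarith
    · ext π
      rw [← sum_zero_iff hS0 π, key π]
      show _ ↔ (∑ i, ∑ a, (-(y i a)) * X (π i) a = ∑ j, S i0 j + ∑ i, v i)
      constructor
      · intro h; linarith
      · intro h; rw [h]; ring

end Pool.Agent.R137.OP.Ex
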