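import Mathlib
import Pool.Agent.R137.OP.Stm

/-!
# Project OP, piece G1: coplanar triples are recovered from the labelled face structure
-/

set_option autoImplicit false

namespace Pool.Agent.R137.OP.G1x

open Filter Topology Set
open scoped BigOperators

lemma sum3 (f : Fin 13 → ℝ) (a b c : Fin 13) (hab : a ≠ b) (hbc : b ≠ c) (hac : a ≠ c)
    (h : ∀ j, j ≠ a → j ≠ b → j ≠ c → f j = 0) : ∑ j, f j = f a + f b + f c := by
  have h1 : ∑ j ∈ ({a, b, c} : Finset (Fin 13)), f j = ∑ j, f j := by
    refine Finset.sum_subset (Finset.subset_univ _) fun j _ hj => ?_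
    simp only [Finset.mem_insert, Finset.mem_singleton, not_or] at hj
    exact h j hj.1 hj.2.1 hj.2.2
  rw [← h1, Finset.sum_insert (by simp [hab, hac]), Finset.sum_insert (by simp [hbc]),
    Finset.sum_singleton]
  ring

lemma indep (u v w : V3) (x y z : ℝ) (h : ∀ k, x * u k + y * v k + z * w k = 0)
    (hd : d3 u v w ≠ 0) : x = 0 ∧ y = 0 ∧ z = 0 := by
  have h0 := h 0
  have h1 := h 1
  have h2 := h 2
  have e1 : x * d3 u v w = 0 := by
    simp only [d3, dt, cr, Matrix.cons_val_zero, Matrix.cons_val_one, Matrix.cons_val]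
    linear_combination h0 * (v 1 * w 2 - v 2 * w 1) + h1 * (v 2 * w 0 - v 0 * w 2) +
      h2 * (v 0 * w 1 - v 1 * w 0)
  have e2 : y * d3 u v w = 0 := by
    simp only [d3, dt, cr, Matrix.cons_val_zero, Matrix.cons_val_one, Matrix.cons_val]
    linear_combination h0 * (w 1 * u 2 - w 2 * u 1) + h1 * (w 2 * u 0 - w 0 * u 2) +
      h2 * (w 0 * u 1 - w 1 * u 0)
  have e3 : z * d3 u v w = 0 := by
    simp only [d3, dt, cr, Matrix.cons_val_zero, Matrix.cons_val_one, Matrix.cons_val]
    linear_combination h0 * (u 1 * v 2 - u 2 * v 1) + h1 * (u 2 * v 0 - u 0 * v 2) +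
      h2 * (u 0 * v 1 - u 1 * v 0)
  exact ⟨(mul_eq_zero.1 e1).resolve_right hd, (mul_eq_zero.1 e2).resolve_right hd,
    (mul_eq_zero.1 e3).resolve_right hd⟩

lemma core (hH : S_HALL) (g0 gm : Fin 13 → V3) (hFG : FG gm = FG g0)
    (S0 : Fin 13 → Fin 13 → ℝ) (hS0 : S0 ∈ PT g0) (J : Fin 13 → Finset (Fin 13))
    (hJ : ∀ i j, S0 i j ≠ 0 ↔ j ∈ J i) (hc : ∀ i, (J i).card ≤ 3)
    (hc' : ∀ j, (Finset.univ.filter fun i => j ∈ J i).card + 4 ≤ 13) (i1 j1 : Fin 13)
    (h1 : S0 i1 j1 ≠ 0) :
    ∃ S ∈ PT gm, (∀ i j, j ∉ J i → S i j = 0) ∧ ∃ i j, S i j ≠ 0 := by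
  have hA : ZP S0 ∈ FG g0 := ⟨S0, hS0, rfl⟩
  rw [← hFG] at hA
  obtain ⟨S, hS, hZ⟩ := hA
  refine ⟨S, hS, fun i j hij => ?_, ?_⟩
  · obtain ⟨π, hπ, hπ'⟩ := hH 13 J hc hc' i j hij
    have hm : π ∈ ZP S0 := by
      intro i'
      by_contra hne
      exact hπ' i' ((hJ i' (π i')).1 hne)
    rw [hZ] at hm
    have := hm i
    rwa [hπ] at this
  · by_contra hcon
    push Not at hcon
    have hm : Equiv.swap i1 j1 ∈ ZP S := fun i => hcon i _
    rw [← hZ] at hm
    have := hm i1
    rw [Equiv.swap_apply_left] at this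
    exact h1 this

lemma case1 (hH : S_HALL) (g0 gm : Fin 13 → V3) (hFG : FG gm = FG g0)
    (a b c : Fin 13) (hab : a ≠ b) (hbc : b ≠ c) (hac : a ≠ c) (α β γ : ℝ) (hα : 0 < α)
    (hβ : 0 < β) (hγ : 0 < γ) (h : ∀ k, α * g0 a k + β * g0 b k + γ * g0 c k = 0) :
    d3 (gm a) (gm b) (gm c) = 0 := by
  set S0 : Fin 13 → Fin 13 → ℝ := fun i j =>
    if i = 0 then (if j = a then α else if j = b then β else if j = c then γ else 0) else 0
    with hS0
  set J : Fin 13 → Finset (Fin 13) := fun i => if i = 0 then {a, b, c} else ∅ with hJdef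
  have hPT : S0 ∈ PT g0 := by
    constructor
    · intro i j
      simp only [hS0]
      split_ifs <;> linarith
    · have hz : ∀ i k, ∑ j, S0 i j * g0 j k = 0 := by
        intro i k
        by_cases hi : i = 0
        · rw [sum3 _ a b c hab hbc hac (fun j h1 h2 h3 => by simp [hS0, hi, h1, h2, h3])]
          simp only [hS0, hi, if_true, if_neg hab.symm, if_neg hbc.symm, if_neg hac.symm]
          exact h k
        · simp [hS0, hi]
      intro i i' k
      rw [hz, hz]
  have hJ : ∀ i j, S0 i j ≠ 0 ↔ j ∈ J i := by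
    intro i j
    by_cases hi : i = 0
    · simp only [hS0, hJdef, hi, if_true, Finset.mem_insert, Finset.mem_singleton]
      by_cases h1 : j = a
      · simp [h1, hα.ne']
      · by_cases h2 : j = b
        · subst h2
          simp [h1, hβ.ne']
        · by_cases h3 : j = c
          · subst h3
            simp [h1, h2, hγ.ne']
          · simp [h1, h2, h3]
    · simp [hS0, hJdef, hi]
  obtain ⟨S, hS, hsupp, i2, j2, hne⟩ := core hH g0 gm hFG S0 hPT J hJ
    (fun i => by
      simp only [hJdef]
      split_ifs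
      · exact Finset.card_le_three
      · simp)
    (fun j => by
      have : (Finset.univ.filter fun i => j ∈ J i) ⊆ {0} := by
        intro i hi
        rw [Finset.mem_filter] at hi
        rw [Finset.mem_singleton]
        by_contra h0
        simp [hJdef, h0] at hi
      have := Finset.card_le_card this
      rw [Finset.card_singleton] at this
      omega) 0 a (by simp [hS0, hα.ne'])
  have hi2 : i2 = 0 := by
    by_contra h0
    exact hne (hsupp i2 j2 (by simp [hJdef, h0]))
  subst hi2
  have hrow : ∀ k, S 0 a * gm a k + S 0 b * gm b k + S 0 c * gm c k = 0 := by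
    intro k
    have h1 := hS.2 0 1 k
    have h2 : ∑ j, S 1 j * gm j k = 0 := by
      refine Finset.sum_eq_zero fun j _ => ?_
      rw [hsupp 1 j (by simp [hJdef]), zero_mul]
    rw [h2, sum3 _ a b c hab hbc hac (fun j h1 h2 h3 => by
      rw [hsupp 0 j (by simp [hJdef, h1, h2, h3]), zero_mul])] at h1
    exact h1
  by_contra hd
  obtain ⟨e1, e2, e3⟩ := indep _ _ _ _ _ _ hrow hd
  apply hne
  by_cases h1 : j2 = a
  · rw [h1, e1]
  · by_cases h2 : j2 = b
    · rw [h2, e2]
    · by_cases h3 : j2 = c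
      · rw [h3, e3]
      · exact hsupp 0 j2 (by simp [hJdef, h1, h2, h3])

lemma case2 (hH : S_HALL) (g0 gm : Fin 13 → V3) (hFG : FG gm = FG g0)
    (a b c : Fin 13) (hab : a ≠ b) (hbc : b ≠ c) (hac : a ≠ c) (α γ : ℝ) (hα : 0 < α)
    (hγ : 0 < γ) (h : ∀ k, g0 b k = α * g0 a k + γ * g0 c k) :
    d3 (gm a) (gm b) (gm c) = 0 := by
  set S0 : Fin 13 → Fin 13 → ℝ := fun i j =>
    if (i : ℕ) < 7 then (if j = b then 1 else 0) else
      (if j = a then α else if j = c then γ else 0) with hS0
  set J : Fin 13 → Finset (Fin 13) := fun i => if (i : ℕ) < 7 then {b} else {a, c} with hJdef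
  have hPT : S0 ∈ PT g0 := by
    constructor
    · intro i j
      simp only [hS0]
      split_ifs <;> linarith
    · have hz : ∀ i k, ∑ j, S0 i j * g0 j k = g0 b k := by
        intro i k
        by_cases hi : (i : ℕ) < 7
        · rw [sum3 _ a b c hab hbc hac (fun j h1 h2 h3 => by simp [hS0, hi, h2])]
          simp only [hS0, hi, if_true, if_neg hab, if_neg hbc.symm]
          ring
        · rw [sum3 _ a b c hab hbc hac (fun j h1 h2 h3 => by simp [hS0, hi, h1, h3])]
          simp only [hS0, hi, if_false, if_true, if_neg hab.symm, if_neg hbc, if_neg hac.symm]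
          rw [h k]
          ring
      intro i i' k
      rw [hz, hz]
  have hJ : ∀ i j, S0 i j ≠ 0 ↔ j ∈ J i := by
    intro i j
    by_cases hi : (i : ℕ) < 7
    · simp only [hS0, hJdef, hi, if_true, Finset.mem_singleton]
      by_cases h1 : j = b <;> simp [h1]
    · simp only [hS0, hJdef, hi, if_false, Finset.mem_insert, Finset.mem_singleton]
      by_cases h1 : j = a
      · simp [h1, hα.ne']
      · by_cases h3 : j = c
        · subst h3
          simp [h1, hγ.ne']
        · simp [h1, h3]
  obtain ⟨S, hS, hsupp, i2, j2, hne⟩ := core hH g0 gm hFG S0 hPT J hJ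
    (fun i => by
      simp only [hJdef]
      split_ifs
      · simp
      · exact Finset.card_le_two.trans (by norm_num))
    (fun j => by
      by_cases hj : j = b
      · have : (Finset.univ.filter fun i => j ∈ J i) ⊆
            Finset.univ.filter (fun i : Fin 13 => (i : ℕ) < 7) := by
          intro i hi
          rw [Finset.mem_filter] at hi ⊢
          refine ⟨Finset.mem_univ _, ?_⟩
          by_contra h0
          have h2 := hi.2
          simp only [hJdef, h0, if_false, Finset.mem_insert, Finset.mem_singleton] at h2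
          rcases h2 with h2 | h2
          · exact hab (h2.symm.trans hj)
          · exact hbc (hj.symm.trans h2)
        have h3 := Finset.card_le_card this
        have h4 : (Finset.univ.filter (fun i : Fin 13 => (i : ℕ) < 7)).card = 7 := by decide
        omega
      · have : (Finset.univ.filter fun i => j ∈ J i) ⊆
            Finset.univ.filter (fun i : Fin 13 => ¬ (i : ℕ) < 7) := by
          intro i hi
          rw [Finset.mem_filter] at hi ⊢
          refine ⟨Finset.mem_univ _, fun h0 => ?_⟩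
          have h2 := hi.2
          simp only [hJdef, h0, if_true, Finset.mem_singleton] at h2
          exact hj h2
        have h3 := Finset.card_le_card this
        have h4 : (Finset.univ.filter (fun i : Fin 13 => ¬ (i : ℕ) < 7)).card = 6 := by decide
        omega) 0 b (by simp [hS0])
  by_contra hd
  -- small rows
  have hlo : ∀ i : Fin 13, (i : ℕ) < 7 → ∀ k, ∑ j, S i j * gm j k = S i b * gm b k := by
    intro i hi k
    rw [sum3 _ a b c hab hbc hac (fun j h1 h2 h3 => by
      rw [hsupp i j (by simp [hJdef, hi, h2]), zero_mul])]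
    rw [hsupp i a (by simp [hJdef, hi, hab]), hsupp i c (by simp [hJdef, hi, hbc.symm])]
    ring
  have hhi : ∀ i : Fin 13, ¬ (i : ℕ) < 7 → ∀ k, ∑ j, S i j * gm j k =
      S i a * gm a k + S i c * gm c k := by
    intro i hi k
    rw [sum3 _ a b c hab hbc hac (fun j h1 h2 h3 => by
      rw [hsupp i j (by simp [hJdef, hi, h1, h3]), zero_mul])]
    rw [hsupp i b (by simp [hJdef, hi, hab.symm, hbc])]
    ring
  have hkey : ∀ i i' : Fin 13, (i : ℕ) < 7 → ¬ (i' : ℕ) < 7 →
      S i' a = 0 ∧ - S i b = 0 ∧ S i' c = 0 := by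
    intro i i' hi hi'
    refine indep (gm a) (gm b) (gm c) _ _ _ (fun k => ?_) hd
    have h1 := hS.2 i i' k
    rw [hlo i hi k, hhi i' hi' k] at h1
    linarith
  have hzero : ∀ i j, S i j = 0 := by
    intro i j
    by_cases hi : (i : ℕ) < 7
    · by_cases hj : j = b
      · have := (hkey i 7 hi (by decide)).2.1
        rw [hj]
        linarith
      · exact hsupp i j (by simp [hJdef, hi, hj])
    · by_cases hj : j = a
      · rw [hj]
        exact (hkey 0 i (by decide) hi).1
      · by_cases hj' : j = c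
        · rw [hj']
          exact (hkey 0 i (by decide) hi).2.2
        · exact hsupp i j (by simp [hJdef, hi, hj, hj'])
  exact hne (hzero i2 j2)

lemma dep (u v w : V3) (hd : d3 u v w = 0) (huv : cr u v ≠ 0) (hvw : cr v w ≠ 0)
    (huw : cr u w ≠ 0) : ∃ α β γ : ℝ, α ≠ 0 ∧ β ≠ 0 ∧ γ ≠ 0 ∧
      ∀ k, α * u k + β * v k + γ * w k = 0 := by
  obtain ⟨k0, hk0⟩ : ∃ k, cr u v k ≠ 0 := by
    by_contra hcon
    push Not at hcon
    exact huv (funext hcon)
  have hrel : ∀ k, cr v w k0 * u k + cr w u k0 * v k + cr u v k0 * w k = 0 := by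
    intro k
    simp only [d3, dt, cr, Matrix.cons_val_zero, Matrix.cons_val_one, Matrix.cons_val] at hd
    fin_cases k0 <;> fin_cases k <;>
      simp only [cr, Fin.zero_eta, Fin.mk_one, Fin.reduceFinMk, Matrix.cons_val_zero,
        Matrix.cons_val_one, Matrix.cons_val] <;>
      first
      | linear_combination hd
      | ring
  refine ⟨cr v w k0, cr w u k0, cr u v k0, ?_, ?_, hk0, hrel⟩
  · intro h0
    rw [h0] at hrel
    apply hvw
    have e : ∀ k, cr u v k0 * cr v w k = 0 := by
      have h0 := hrel 0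
      have h1 := hrel 1
      have h2 := hrel 2
      intro k
      fin_cases k <;>
      simp only [cr, Fin.zero_eta, Fin.mk_one, Fin.reduceFinMk, Matrix.cons_val_zero,
        Matrix.cons_val_one, Matrix.cons_val] at h0 h1 h2 ⊢
      · linear_combination v 1 * h2 - v 2 * h1
      · linear_combination v 2 * h0 - v 0 * h2
      · linear_combination v 0 * h1 - v 1 * h0
    funext k
    exact (mul_eq_zero.1 (e k)).resolve_left hk0
  · intro h0
    rw [h0] at hrel
    apply huw
    have e : ∀ k, cr u v k0 * cr u w k = 0 := by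
      have h0 := hrel 0
      have h1 := hrel 1
      have h2 := hrel 2
      intro k
      fin_cases k <;>
      simp only [cr, Fin.zero_eta, Fin.mk_one, Fin.reduceFinMk, Matrix.cons_val_zero,
        Matrix.cons_val_one, Matrix.cons_val] at h0 h1 h2 ⊢
      · linear_combination u 1 * h2 - u 2 * h1
      · linear_combination u 2 * h0 - u 0 * h2
      · linear_combination u 0 * h1 - u 1 * h0
    funext k
    exact (mul_eq_zero.1 (e k)).resolve_left hk0

/-- `x` and `z` of one sign, `y` of the other one -/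
lemma case2' (hH : S_HALL) (g0 gm : Fin 13 → V3) (hFG : FG gm = FG g0)
    (a b c : Fin 13) (hab : a ≠ b) (hbc : b ≠ c) (hac : a ≠ c) (α β γ : ℝ)
    (h : ∀ k, α * g0 a k + β * g0 b k + γ * g0 c k = 0) (hs : β ≠ 0) (h1 : 0 < -(α / β))
    (h2 : 0 < -(γ / β)) : d3 (gm a) (gm b) (gm c) = 0 := by
  refine case2 hH g0 gm hFG a b c hab hbc hac _ _ h1 h2 (fun k => ?_)
  have h3 := h k
  field_simp
  linarith

theorem main (hH : S_HALL) : S_GCOL := by
  intro g0 g hpar _ hFG a b c hd
  refine Filter.Eventually.of_forall fun m => ?_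
  by_cases hab : a = b
  · subst hab
    simp only [d3, dt, cr, Matrix.cons_val_zero, Matrix.cons_val_one, Matrix.cons_val]
    ring
  by_cases hbc : b = c
  · subst hbc
    simp only [d3, dt, cr, Matrix.cons_val_zero, Matrix.cons_val_one, Matrix.cons_val]
    ring
  by_cases hac : a = c
  · subst hac
    simp only [d3, dt, cr, Matrix.cons_val_zero, Matrix.cons_val_one, Matrix.cons_val]
    ring
  obtain ⟨α, β, γ, hα, hβ, hγ, h⟩ := dep _ _ _ hd (hpar a b hab) (hpar b c hbc) (hpar a c hac)
  have hswap1 : d3 (g m b) (g m a) (g m c) = - d3 (g m a) (g m b) (g m c) := by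
    simp only [d3, dt, cr, Matrix.cons_val_zero, Matrix.cons_val_one, Matrix.cons_val]
    ring
  have hswap2 : d3 (g m a) (g m c) (g m b) = - d3 (g m a) (g m b) (g m c) := by
    simp only [d3, dt, cr, Matrix.cons_val_zero, Matrix.cons_val_one, Matrix.cons_val]
    ring
  have hB : ∀ x y z : ℝ, (∀ k, x * g0 a k + y * g0 b k + z * g0 c k = 0) → 0 < x → y < 0 →
      0 < z → d3 (g m a) (g m b) (g m c) = 0 := by
    intro x y z h' hx hy hz
    exact case2' hH g0 (g m) (hFG m) a b c hab hbc hac x y z h' hy.ne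
      (neg_pos.2 (div_neg_of_pos_of_neg hx hy)) (neg_pos.2 (div_neg_of_pos_of_neg hz hy))
  have hA : ∀ x y z : ℝ, (∀ k, x * g0 a k + y * g0 b k + z * g0 c k = 0) → x < 0 → 0 < y →
      0 < z → d3 (g m a) (g m b) (g m c) = 0 := by
    intro x y z h' hx hy hz
    have := case2' hH g0 (g m) (hFG m) b a c (Ne.symm hab) hac hbc y x z
      (fun k => by have := h' k; linarith) hx.ne
      (neg_pos.2 (div_neg_of_pos_of_neg hy hx)) (neg_pos.2 (div_neg_of_pos_of_neg hz hx))
    rw [hswap1] at this
    linarith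
  have hC : ∀ x y z : ℝ, (∀ k, x * g0 a k + y * g0 b k + z * g0 c k = 0) → 0 < x → 0 < y →
      z < 0 → d3 (g m a) (g m b) (g m c) = 0 := by
    intro x y z h' hx hy hz
    have := case2' hH g0 (g m) (hFG m) a c b hac (Ne.symm hbc) hab x z y
      (fun k => by have := h' k; linarith) hz.ne
      (neg_pos.2 (div_neg_of_pos_of_neg hx hz)) (neg_pos.2 (div_neg_of_pos_of_neg hy hz))
    rw [hswap2] at this
    linarith
  have hD : ∀ x y z : ℝ, (∀ k, x * g0 a k + y * g0 b k + z * g0 c k = 0) → 0 < x → 0 < y →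
      0 < z → d3 (g m a) (g m b) (g m c) = 0 := by
    intro x y z h' hx hy hz
    exact case1 hH g0 (g m) (hFG m) a b c hab hbc hac x y z hx hy hz h'
  have hneg : ∀ k, (-α) * g0 a k + (-β) * g0 b k + (-γ) * g0 c k = 0 := by
    intro k
    have := h k
    linarith
  rcases lt_or_gt_of_ne hα with h1 | h1 <;> rcases lt_or_gt_of_ne hβ with h2 | h2 <;>
    rcases lt_or_gt_of_ne hγ with h3 | h3
  · exact hD _ _ _ hneg (by linarith) (by linarith) (by linarith)
  · exact hC _ _ _ hneg (by linarith) (by linarith) (by linarith)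
  · exact hB _ _ _ hneg (by linarith) (by linarith) (by linarith)
  · exact hA _ _ _ h h1 h2 h3
  · exact hA _ _ _ hneg (by linarith) (by linarith) (by linarith)
  · exact hB _ _ _ h h1 h2 h3
  · exact hC _ _ _ h h1 h2 h3
  · exact hD _ _ _ h h1 h2 h3

end Pool.Agent.R137.OP.G1x
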