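import Pool.Agent.R137.OP.MinC

/-! Piece M0 of project OP (MP_7b675e_co): minimal supports persist, sum zero. -/

set_option autoImplicit false

namespace Pool.Agent.R137.OP.M0x

open Filter Topology Set
open scoped BigOperators
open Pool.Agent.R137.OP.MC

theorem main : S_MIN0 := by
  intro n g0 g hh S hS hrow
  have hPT := hS.1
  have hne := hS.2.1
  obtain ⟨i0, j0, h00⟩ : ∃ i j, S i j ≠ 0 := by
    by_contra h
    push Not at h
    exact hne (funext fun i => funext fun j => h i j)
  have hz0 : ∀ i, i ≠ i0 → ∀ j, S i j = 0 := by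
    obtain ⟨μ, hμ⟩ := lemM hS (fun i j => if i = i0 then S i j else 0)
      (fun i j h => by
        by_contra h'
        apply h
        simp [h'])
      (fun i i' c => by
        have e : ∀ i, ∑ j, (if i = i0 then S i j else 0) * g0 j c = 0 := by
          intro i
          by_cases h : i = i0
          · simp only [h, if_true]
            exact hrow i0 c
          · simp [h]
        rw [e, e])
    have h1 := hμ i0 j0
    simp only [if_true] at h1
    have hμ1 : μ ≠ 0 := by
      intro h
      rw [h, zero_mul] at h1
      exact h00 h1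
    intro i hi j
    have h2 := hμ i j
    simp only [hi, if_false] at h2
    rcases mul_eq_zero.1 h2.symm with h | h
    · exact absurd h hμ1
    · exact h
  have hdep : ∀ z : Fin n → ℝ, (∀ j, z j ≠ 0 → S i0 j ≠ 0) → (∀ c, ∑ j, z j * g0 j c = 0) →
      ∃ μ : ℝ, ∀ j, z j = μ * S i0 j := by
    intro z h1 h2
    obtain ⟨μ, hμ⟩ := lemM hS (fun i j => if i = i0 then z j else 0)
      (fun i j h => by
        by_cases h' : i = i0
        · subst h'
          simp only [if_true] at h
          exact h1 j h
        · simp [h'] at h)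
      (fun i i' c => by
        have e : ∀ i, ∑ j, (if i = i0 then z j else 0) * g0 j c = 0 := by
          intro i
          by_cases h : i = i0
          · simp only [h, if_true]
            exact h2 c
          · simp [h]
        rw [e, e])
    exact ⟨μ, fun j => by simpa using hμ i0 j⟩
  by_cases hn : n ≤ 1
  · refine Eventually.of_forall fun t => ⟨S, ⟨hPT.1, fun i i' c => ?_⟩, fun i j => Iff.rfl⟩
    have : i = i' := by
      apply Fin.ext
      have := i.2
      have := i'.2
      omega
    rw [this]
  classical
  let J : Finset (Fin n) := Finset.univ.filter fun j => S i0 j ≠ 0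
  have memJ : ∀ j, j ∈ J ↔ S i0 j ≠ 0 := fun j => by simp [J]
  have hpos : ∀ j ∈ J, 0 < S i0 j := fun j hj =>
    lt_of_le_of_ne (hPT.1 i0 j) (Ne.symm ((memJ j).1 hj))
  have hsum : ∀ c, ∑ j ∈ J, S i0 j * g0 j c = 0 := by
    intro c
    rw [← hrow i0 c]
    apply Finset.sum_subset (Finset.subset_univ _)
    intro j _ hj
    rw [memJ, not_not] at hj
    rw [hj, zero_mul]
  have hconc : (∀ᶠ t in 𝓝 (0 : ℝ), Rw J (g t) 0) →
      ∀ᶠ t in 𝓝 (0 : ℝ), ∃ S' ∈ PT (g t), ∀ i j, S' i j ≠ 0 ↔ S i j ≠ 0 := by
    intro h
    filter_upwards [h] with t ⟨r, h1, h2, h3⟩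
    refine ⟨fun i j => if i = i0 then r j else 0, ⟨fun i j => ?_, fun i i' c => ?_⟩,
      fun i j => ?_⟩
    · dsimp only
      split_ifs
      · exact h1 j
      · exact le_rfl
    · have e : ∀ i, ∑ j, (if i = i0 then r j else 0) * g t j c = 0 := by
        intro i
        by_cases h : i = i0
        · simp only [h, if_true]
          exact h3 c
        · simp [h]
      rw [e, e]
    · by_cases h : i = i0
      · subst h
        simp only [if_true]
        rw [h2, memJ]
      · simp [h, hz0 i h j]
  have hg : ∀ j, Tendsto (fun t => g t j) (𝓝 0) (𝓝 (g0 j)) := fun j =>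
    (tendsto_pi_nhds.1 hh.lim) j
  have hcard : J.card ≤ 4 := by
    by_contra hlt
    obtain ⟨T, hTJ, hT⟩ := Finset.exists_subset_card_eq (show 4 ≤ J.card by omega)
    obtain ⟨z, z1, ⟨j1, z2⟩, z3⟩ := dep4 g0 T hT.ge
    obtain ⟨μ, hμ⟩ := hdep z (fun j hj => (memJ j).1 (hTJ (z1 j hj))) z3
    obtain ⟨e, he, heT⟩ := Finset.exists_mem_notMem_of_card_lt_card (show T.card < J.card by omega)
    have hze : z e = 0 := by
      by_contra h
      exact heT (z1 e h)
    rw [hμ e] at hze
    rcases mul_eq_zero.1 hze with h | h
    · rw [hμ j1, h, zero_mul] at z2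
      exact z2 rfl
    · exact (memJ e).1 he h
  have hcases : J.card = 0 ∨ J.card = 1 ∨ J.card = 2 ∨ J.card = 3 ∨ J.card = 4 := by omega
  rcases hcases with hc | hc | hc | hc | hc
  · exfalso
    rw [Finset.card_eq_zero] at hc
    have := (memJ j0).2 h00
    rw [hc] at this
    exact absurd this (Finset.notMem_empty _)
  · exfalso
    obtain ⟨a, ha⟩ := Finset.card_eq_one.1 hc
    have pa := hpos a (by rw [ha]; simp)
    have g0a : ∀ c, g0 a c = 0 := by
      intro c
      have h1 := hsum c
      rw [ha, Finset.sum_singleton] at h1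
      rcases mul_eq_zero.1 h1 with h | h
      · exact absurd h pa.ne'
      · exact h
    obtain ⟨b, hb⟩ : ∃ b : Fin n, b ≠ a := by
      have : Nontrivial (Fin n) := Fin.nontrivial_iff_two_le.2 (by omega)
      exact exists_ne a
    apply hh.par a b hb.symm
    funext i
    fin_cases i <;> simp [cr, g0a]
  · exfalso
    obtain ⟨a, b, hab, hJ⟩ := Finset.card_eq_two.1 hc
    have pa := hpos a (by rw [hJ]; simp)
    have pb := hpos b (by rw [hJ]; simp)
    have gb : ∀ c, g0 b c = -(S i0 a / S i0 b) * g0 a c := by
      intro c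
      have h1 := hsum c
      rw [hJ, Finset.sum_pair hab] at h1
      field_simp
      linarith
    apply hh.par a b hab
    funext i
    fin_cases i <;> simp [cr, gb] <;> ring
  · obtain ⟨a, b, c, hab, hac, hbc, hJ⟩ := Finset.card_eq_three.1 hc
    have pa := hpos a (by rw [hJ]; simp)
    have pb := hpos b (by rw [hJ]; simp)
    have pc := hpos c (by rw [hJ]; simp)
    have hs : ∀ e, S i0 a * g0 a e + S i0 b * g0 b e = -S i0 c * g0 c e := by
      intro e
      have h1 := hsum e
      rw [hJ, Finset.sum_insert (by simp [hab, hac]), Finset.sum_pair hbc] at h1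
      linarith
    have hd0 : d3 (g0 c) (g0 a) (g0 b) = 0 := by
      have h1 : -S i0 c * d3 (g0 c) (g0 a) (g0 b) = 0 := by
        have e0 := hs 0
        have e1 := hs 1
        have e2 := hs 2
        have : -S i0 c * d3 (g0 c) (g0 a) (g0 b) =
          (-S i0 c * g0 c 0) * (g0 a 1 * g0 b 2 - g0 a 2 * g0 b 1) +
          (-S i0 c * g0 c 1) * (g0 a 2 * g0 b 0 - g0 a 0 * g0 b 2) +
          (-S i0 c * g0 c 2) * (g0 a 0 * g0 b 1 - g0 a 1 * g0 b 0) := by
          simp [d3, dt, cr]; ring
        rw [this, ← e0, ← e1, ← e2]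
        ring
      rcases mul_eq_zero.1 h1 with h | h
      · linarith
      · exact h
    have hcol := hh.col c a b hd0
    have hq : Tendsto (fun t => fun e => -S i0 c * g t c e) (𝓝 0)
        (𝓝 (fun e => -S i0 c * g0 c e)) := by
      have h1 := (hg c).const_smul (-S i0 c)
      exact h1
    have h := P2 (hg a) (hg b) hq (hh.par a b hab) pa pb (funext fun e => (hs e).symm)
      (by
        filter_upwards [hcol] with t ht
        have : d3 (fun e => -S i0 c * g t c e) (g t a) (g t b) =
          -S i0 c * d3 (g t c) (g t a) (g t b) := by simp [d3, dt]; ring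
        rw [this, ht, mul_zero])
    apply hconc
    filter_upwards [h] with t ⟨α, β, hα, hβ, hs'⟩
    have k := rw_insert (rw_insert (rw_insert (rw_empty (g t)) c (by simp) pc) b
      (by simp [hbc]) hβ) a (by simp [hab, hac]) hα
    have e1 : (insert a (insert b (insert c (∅ : Finset (Fin n))))) = J := by
      rw [hJ]
      ext x
      simp
    rw [e1] at k
    convert k using 1
    funext e
    have := hs' e
    simp only [Pi.zero_apply, add_zero]
    linarith
  · obtain ⟨d, T, hdT, hTJ, hT⟩ := Finset.card_eq_succ.1 hc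
    obtain ⟨a, b, c, hab, hac, hbc, hT'⟩ := Finset.card_eq_three.1 hT
    subst hT'
    simp only [Finset.mem_insert, Finset.mem_singleton, not_or] at hdT
    obtain ⟨hda, hdb, hdc⟩ := hdT
    have pa := hpos a (by rw [← hTJ]; simp)
    have pb := hpos b (by rw [← hTJ]; simp)
    have pc := hpos c (by rw [← hTJ]; simp)
    have pd := hpos d (by rw [← hTJ]; simp)
    have hs : ∀ e, S i0 a * g0 a e + S i0 b * g0 b e + S i0 c * g0 c e = -S i0 d * g0 d e := by
      intro e
      have h1 := hsum e
      rw [← hTJ, Finset.sum_insert (by simp [hda, hdb, hdc]),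
        Finset.sum_insert (by simp [hab, hac]), Finset.sum_pair hbc] at h1
      linarith
    have hD : d3 (g0 a) (g0 b) (g0 c) ≠ 0 := by
      intro hD
      obtain ⟨z, z1, z2, z3⟩ := dep3 g0 hac hbc (hh.par a b hab) hD
      obtain ⟨μ, hμ⟩ := hdep z (fun j hj => by
        rcases z1 j hj with h | h | h
        · rw [h]; exact pa.ne'
        · rw [h]; exact pb.ne'
        · rw [h]; exact pc.ne') z3
      have hzd : z d = 0 := by
        by_contra h
        rcases z1 d h with h | h | h
        · exact hda h
        · exact hdb h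
        · exact hdc h
      rw [hμ d] at hzd
      rcases mul_eq_zero.1 hzd with h | h
      · rw [hμ c, h, zero_mul] at z2
        exact z2 rfl
      · exact pd.ne' h
    have hq : Tendsto (fun t => fun e => -S i0 d * g t d e) (𝓝 0)
        (𝓝 (fun e => -S i0 d * g0 d e)) := by
      have h1 := (hg d).const_smul (-S i0 d)
      exact h1
    have h := P3 (hg a) (hg b) (hg c) hq hD pa pb pc (funext fun e => (hs e).symm)
    apply hconc
    filter_upwards [h] with t ⟨α, β, γ, hα, hβ, hγ, hs'⟩
    have k := rw_insert (rw_insert (rw_insert (rw_insert (rw_empty (g t)) c (by simp) hγ) b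
      (by simp [hbc]) hβ) a (by simp [hab, hac]) hα) d (by simp [hda, hdb, hdc]) pd
    have e1 : (insert d (insert a (insert b (insert c (∅ : Finset (Fin n)))))) = J := by
      rw [← hTJ]
      ext x
      simp
    rw [e1] at k
    convert k using 1
    funext e
    have := hs' e
    simp only [Pi.zero_apply, add_zero]
    linarith

end Pool.Agent.R137.OP.M0x
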