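import Pool.Agent.R137.OP.MinC

/-! Piece M1 of project OP (MP_7b675e_co): minimal supports persist, sum nonzero. -/

set_option autoImplicit false

namespace Pool.Agent.R137.OP.M1x

open Filter Topology Set
open scoped BigOperators
open Pool.Agent.R137.OP.MC

theorem lagr (x y z w : V3) : dt (cr x y) (cr z w) = dt x z * dt y w - dt x w * dt y z := by
  simp [dt, cr]; ring

theorem dt_comm (x y : V3) : dt x y = dt y x := by simp [dt]; ring

theorem parN {x y a : V3} (hx : x ≠ 0) (hxy : cr x y = 0) (ha : dt a x = 0) : dt a y = 0 := by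
  have h := lagr x y x a
  have h0 : dt (cr x y) (cr x a) = 0 := by rw [hxy]; simp [dt]
  rw [h0, dt_comm x a, ha, zero_mul, sub_zero] at h
  rcases mul_eq_zero.1 h.symm with h | h
  · exact absurd h (dt_pos hx).ne'
  · rw [dt_comm]; exact h

theorem sum_single {n : ℕ} (g : Fin n → V3) (e : Fin 3) (b : Fin n) (γ : ℝ) :
    ∑ j, Pi.single (M := fun _ => ℝ) b γ j * g j e = γ * g b e := by
  rw [Finset.sum_eq_single b]
  · simp
  · intro j _ hj
    simp [Pi.single_eq_of_ne hj]
  · intro h
    exact absurd (Finset.mem_univ b) h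

theorem cr3 {n : ℕ} (g : Fin n → V3) {a b c : Fin n} (hD : d3 (g a) (g b) (g c) ≠ 0) (q : V3) :
    ∃ z : Fin n → ℝ, (∀ j, z j ≠ 0 → j = a ∨ j = b ∨ j = c) ∧ ∀ e, ∑ j, z j * g j e = q e := by
  refine ⟨fun j => Pi.single (M := fun _ => ℝ) a (d3 q (g b) (g c) / d3 (g a) (g b) (g c)) j +
    Pi.single (M := fun _ => ℝ) b (d3 (g a) q (g c) / d3 (g a) (g b) (g c)) j +
    Pi.single (M := fun _ => ℝ) c (d3 (g a) (g b) q / d3 (g a) (g b) (g c)) j, ?_, ?_⟩
  · intro j hj
    by_contra h
    push Not at h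
    apply hj
    simp [Pi.single_eq_of_ne h.1, Pi.single_eq_of_ne h.2.1, Pi.single_eq_of_ne h.2.2]
  · intro e
    simp only [add_mul, Finset.sum_add_distrib, sum_single]
    have k := key3 (g a) (g b) (g c) q e
    field_simp
    linarith

theorem cr2 {n : ℕ} (g : Fin n → V3) {a b : Fin n} (hN : cr (g a) (g b) ≠ 0) (q : V3)
    (hq : dt q (cr (g a) (g b)) = 0) :
    ∃ z : Fin n → ℝ, (∀ j, z j ≠ 0 → j = a ∨ j = b) ∧ ∀ e, ∑ j, z j * g j e = q e := by
  have hN' := dt_pos hN
  refine ⟨fun j => Pi.single (M := fun _ => ℝ) a (dt (cr q (g b)) (cr (g a) (g b)) /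
      dt (cr (g a) (g b)) (cr (g a) (g b))) j +
    Pi.single (M := fun _ => ℝ) b (dt (cr (g a) q) (cr (g a) (g b)) /
      dt (cr (g a) (g b)) (cr (g a) (g b))) j, ?_, ?_⟩
  · intro j hj
    by_contra h
    push Not at h
    apply hj
    simp [Pi.single_eq_of_ne h.1, Pi.single_eq_of_ne h.2]
  · intro e
    simp only [add_mul, Finset.sum_add_distrib, sum_single]
    have k := key2 (g a) (g b) q e
    rw [hq] at k
    field_simp
    linarith

theorem exq {p : V3} (hp : p ≠ 0) : ∃ q : V3, cr p q ≠ 0 := by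
  by_contra h
  push Not at h
  apply hp
  have h1 := h ![1, 0, 0]
  have h2 := h ![0, 1, 0]
  have a1 := congrFun h1 1
  have a2 := congrFun h1 2
  have a3 := congrFun h2 2
  simp [cr] at a1 a2 a3
  funext i
  fin_cases i
  · exact a3
  · exact a2
  · exact a1

theorem main : S_MIN1 := by
  intro n g0 g hh S hS hrow
  have hPT := hS.1
  have hne := hS.2.1
  obtain ⟨i0, j0, h00⟩ : ∃ i j, S i j ≠ 0 := by
    by_contra h
    push Not at h
    exact hne (funext fun i => funext fun j => h i j)
  obtain ⟨p, hp⟩ : ∃ p : V3, p = fun c => ∑ j, S i0 j * g0 j c := ⟨_, rfl⟩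
  have hp0 : p ≠ 0 := by rw [hp]; exact hrow i0
  have hps : ∀ i c, ∑ j, S i j * g0 j c = p c := fun i c => by rw [hp]; exact hPT.2 i i0 c
  classical
  let J : Fin n → Finset (Fin n) := fun i => Finset.univ.filter fun j => S i j ≠ 0
  have memJ : ∀ i j, j ∈ J i ↔ S i j ≠ 0 := fun i j => by simp [J]
  have hpos : ∀ i, ∀ j ∈ J i, 0 < S i j := fun i j hj =>
    lt_of_le_of_ne (hPT.1 i j) (Ne.symm ((memJ i j).1 hj))
  have hsum : ∀ i c, ∑ j ∈ J i, S i j * g0 j c = p c := by
    intro i c
    rw [← hps i c]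
    apply Finset.sum_subset (Finset.subset_univ _)
    intro j _ hj
    rw [memJ, not_not] at hj
    rw [hj, zero_mul]
  have hdep : ∀ i (z : Fin n → ℝ), (∀ j, z j ≠ 0 → S i j ≠ 0) →
      (∀ c, ∑ j, z j * g0 j c = 0) → ∀ j, z j = 0 := by
    intro i1 z h1 h2
    have e : ∀ i c, ∑ j, (if i = i1 then z j else 0) * g0 j c = 0 := by
      intro i c
      by_cases h : i = i1
      · simp only [h, if_true]
        exact h2 c
      · simp [h]
    obtain ⟨μ, hμ⟩ := lemM hS (fun i j => if i = i1 then z j else 0)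
      (fun i j h => by
        by_cases h' : i = i1
        · subst h'
          simp only [if_true] at h
          exact h1 j h
        · simp [h'] at h)
      (fun i i' c => by rw [e, e])
    have hμ0 : μ = 0 := by
      by_contra hμ0
      apply hp0
      funext c
      have h3 : ∑ j, (if i1 = i1 then z j else 0) * g0 j c = μ * p c := by
        rw [← hps i1 c, Finset.mul_sum]
        refine Finset.sum_congr rfl fun j _ => ?_
        rw [hμ i1 j]
        ring
      rw [e] at h3
      rcases mul_eq_zero.1 h3.symm with h | h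
      · exact absurd h hμ0
      · exact h
    intro j
    have := hμ i1 j
    simpa [hμ0] using this
  have hq : ∀ q : V3, (∀ i, ∃ z : Fin n → ℝ, (∀ j, z j ≠ 0 → S i j ≠ 0) ∧
      ∀ c, ∑ j, z j * g0 j c = q c) → cr p q = 0 := by
    intro q h
    choose z hz1 hz2 using h
    obtain ⟨μ, hμ⟩ := lemM hS z hz1 (fun i i' c => by rw [hz2, hz2])
    have : ∀ c, q c = μ * p c := by
      intro c
      rw [← hz2 i0 c, ← hps i0 c, Finset.mul_sum]
      refine Finset.sum_congr rfl fun j _ => ?_
      rw [hμ i0 j]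
      ring
    funext i
    fin_cases i <;> simp [cr, this] <;> ring
  have htype : ∀ i, (∃ b, J i = {b}) ∨ (∃ a b, a ≠ b ∧ J i = {a, b}) ∨
      (∃ a b c, a ≠ b ∧ a ≠ c ∧ b ≠ c ∧ J i = {a, b, c} ∧ d3 (g0 a) (g0 b) (g0 c) ≠ 0) := by
    intro i
    have hcard : (J i).card ≤ 3 := by
      by_contra hlt
      obtain ⟨z, z1, ⟨j1, z2⟩, z3⟩ := dep4 g0 (J i) (by omega)
      exact z2 (hdep i z (fun j hj => (memJ i j).1 (z1 j hj)) z3 j1)
    have hcases : (J i).card = 0 ∨ (J i).card = 1 ∨ (J i).card = 2 ∨ (J i).card = 3 := by omega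
    rcases hcases with hc | hc | hc | hc
    · exfalso
      rw [Finset.card_eq_zero] at hc
      apply hp0
      funext c
      rw [← hsum i c, hc, Finset.sum_empty]
      rfl
    · exact Or.inl (Finset.card_eq_one.1 hc)
    · exact Or.inr (Or.inl (Finset.card_eq_two.1 hc))
    · obtain ⟨a, b, c, hab, hac, hbc, hJ⟩ := Finset.card_eq_three.1 hc
      refine Or.inr (Or.inr ⟨a, b, c, hab, hac, hbc, hJ, ?_⟩)
      intro hD
      obtain ⟨z, z1, z2, z3⟩ := dep3 g0 hac hbc (hh.par a b hab) hD
      refine z2 (hdep i z (fun j hj => (memJ i j).1 ?_) z3 c)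
      rw [hJ]
      simpa using z1 j hj
  have hg : ∀ j, Tendsto (fun t => g t j) (𝓝 0) (𝓝 (g0 j)) := fun j =>
    (tendsto_pi_nhds.1 hh.lim) j
  have sum2 : ∀ i a b, a ≠ b → J i = {a, b} →
      p = fun c => S i a * g0 a c + S i b * g0 b c := by
    intro i a b hab hJ
    funext c
    rw [← hsum i c, hJ, Finset.sum_pair hab]
  have hconc : (∃ q : ℝ → V3, Tendsto q (𝓝 0) (𝓝 p) ∧
      (∀ i b, J i = {b} → ∀ᶠ t in 𝓝 (0 : ℝ), Rw {b} (g t) (q t)) ∧
      (∀ i a b, a ≠ b → J i = {a, b} → ∀ᶠ t in 𝓝 (0 : ℝ), d3 (q t) (g t a) (g t b) = 0)) →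
      ∀ᶠ t in 𝓝 (0 : ℝ), ∃ S' ∈ PT (g t), ∀ i j, S' i j ≠ 0 ↔ S i j ≠ 0 := by
    rintro ⟨q, hq0, hq1, hq2⟩
    have hall : ∀ i, ∀ᶠ t in 𝓝 (0 : ℝ), Rw (J i) (g t) (q t) := by
      intro i
      rcases htype i with ⟨b, hJ⟩ | ⟨a, b, hab, hJ⟩ | ⟨a, b, c, hab, hac, hbc, hJ, hD⟩
      · rw [hJ]
        exact hq1 i b hJ
      · have pa := hpos i a (by rw [hJ]; simp)
        have pb := hpos i b (by rw [hJ]; simp)
        filter_upwards [P2 (hg a) (hg b) hq0 (hh.par a b hab) pa pb (sum2 i a b hab hJ)
          (hq2 i a b hab hJ)] with t ⟨α, β, hα, hβ, hs'⟩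
        have k := rw_insert (rw_insert (rw_empty (g t)) b (by simp) hβ) a (by simp [hab]) hα
        have e1 : (insert a (insert b (∅ : Finset (Fin n)))) = J i := by
          rw [hJ]
          ext x
          simp
        rw [e1] at k
        convert k using 1
        funext e
        have := hs' e
        simp only [Pi.zero_apply, add_zero]
        linarith
      · have pa := hpos i a (by rw [hJ]; simp)
        have pb := hpos i b (by rw [hJ]; simp)
        have pc := hpos i c (by rw [hJ]; simp)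
        have hs : p = fun e => S i a * g0 a e + S i b * g0 b e + S i c * g0 c e := by
          funext e
          rw [← hsum i e, hJ, Finset.sum_insert (by simp [hab, hac]), Finset.sum_pair hbc]
          ring
        filter_upwards [P3 (hg a) (hg b) (hg c) hq0 hD pa pb pc hs] with
          t ⟨α, β, γ, hα, hβ, hγ, hs'⟩
        have k := rw_insert (rw_insert (rw_insert (rw_empty (g t)) c (by simp) hγ) b
          (by simp [hbc]) hβ) a (by simp [hab, hac]) hα
        have e1 : (insert a (insert b (insert c (∅ : Finset (Fin n))))) = J i := by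
          rw [hJ]
          ext x
          simp
        rw [e1] at k
        convert k using 1
        funext e
        have := hs' e
        simp only [Pi.zero_apply, add_zero]
        linarith
    filter_upwards [eventually_all.2 hall] with t ht
    choose r h1 h2 h3 using ht
    refine ⟨r, ⟨h1, fun i i' c => by rw [h3, h3]⟩, fun i j => ?_⟩
    rw [h2, memJ]
  apply hconc
  by_cases hI : ∃ i1 b, J i1 = {b}
  · obtain ⟨i1, b, hJ1⟩ := hI
    have ps := hpos i1 b (by rw [hJ1]; simp)
    have hpb : ∀ c, p c = S i1 b * g0 b c := by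
      intro c
      rw [← hsum i1 c, hJ1, Finset.sum_singleton]
    refine ⟨fun t => fun e => S i1 b * g t b e, ?_, ?_, ?_⟩
    · have h1 := (hg b).const_smul (S i1 b)
      have h2 : p = S i1 b • g0 b := by
        funext c
        rw [hpb]
        rfl
      rw [h2]
      exact h1
    · intro i b' hJ
      have ps' := hpos i b' (by rw [hJ]; simp)
      have hpb' : ∀ c, p c = S i b' * g0 b' c := by
        intro c
        rw [← hsum i c, hJ, Finset.sum_singleton]
      have hbb : b' = b := by
        by_contra hbb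
        apply hh.par b' b hbb
        have hgb : ∀ c, g0 b c = S i b' / S i1 b * g0 b' c := by
          intro c
          have h1 := hpb c
          have h2 := hpb' c
          field_simp
          linarith
        funext e
        fin_cases e <;> simp [cr, hgb] <;> ring
      refine Eventually.of_forall fun t => ?_
      have k := rw_insert (rw_empty (g t)) b (by simp) ps
      rw [hbb]
      have e1 : (insert b (∅ : Finset (Fin n))) = {b} := by
        ext x
        simp
      rw [e1] at k
      convert k using 1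
      funext e
      simp
    · intro i a c hac hJ
      have hs := sum2 i a c hac hJ
      have hd0 : d3 (g0 b) (g0 a) (g0 c) = 0 := by
        have h1 : S i1 b * d3 (g0 b) (g0 a) (g0 c) = 0 := by
          have e0 : S i1 b * g0 b 0 = S i a * g0 a 0 + S i c * g0 c 0 := by
            rw [← hpb 0, hs]
          have e1 : S i1 b * g0 b 1 = S i a * g0 a 1 + S i c * g0 c 1 := by
            rw [← hpb 1, hs]
          have e2 : S i1 b * g0 b 2 = S i a * g0 a 2 + S i c * g0 c 2 := by
            rw [← hpb 2, hs]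
          have : S i1 b * d3 (g0 b) (g0 a) (g0 c) =
            (S i1 b * g0 b 0) * (g0 a 1 * g0 c 2 - g0 a 2 * g0 c 1) +
            (S i1 b * g0 b 1) * (g0 a 2 * g0 c 0 - g0 a 0 * g0 c 2) +
            (S i1 b * g0 b 2) * (g0 a 0 * g0 c 1 - g0 a 1 * g0 c 0) := by
            simp [d3, dt, cr]; ring
          rw [this, e0, e1, e2]
          ring
        rcases mul_eq_zero.1 h1 with h | h
        · exact absurd h ps.ne'
        · exact h
      filter_upwards [hh.col b a c hd0] with t ht
      have : d3 (fun e => S i1 b * g t b e) (g t a) (g t c) =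
          S i1 b * d3 (g t b) (g t a) (g t c) := by simp [d3, dt]; ring
      rw [this, ht, mul_zero]
  · by_cases h2 : ∃ i i' a b c d, a ≠ b ∧ c ≠ d ∧ J i = {a, b} ∧ J i' = {c, d} ∧
      cr (cr (g0 a) (g0 b)) (cr (g0 c) (g0 d)) ≠ 0
    · obtain ⟨i, i', a, b, c, d, hab, hcd, hJ, hJ', hM⟩ := h2
      have hM' := dt_pos hM
      have s1 := sum2 i a b hab hJ
      have s2 := sum2 i' c d hcd hJ'
      have n1 : dt p (cr (g0 a) (g0 b)) = 0 := by rw [s1]; simp [dt, cr]; ring
      have n2 : dt p (cr (g0 c) (g0 d)) = 0 := by rw [s2]; simp [dt, cr]; ring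
      obtain ⟨lam, hlam⟩ : ∃ lam : ℝ, lam = dt p (cr (cr (g0 a) (g0 b)) (cr (g0 c) (g0 d))) /
        dt (cr (cr (g0 a) (g0 b)) (cr (g0 c) (g0 d)))
          (cr (cr (g0 a) (g0 b)) (cr (g0 c) (g0 d))) := ⟨_, rfl⟩
      refine ⟨fun t => lam • cr (cr (g t a) (g t b)) (cr (g t c) (g t d)), ?_, ?_, ?_⟩
      · have h1 := (tendsto_cr (tendsto_cr (hg a) (hg b)) (tendsto_cr (hg c) (hg d))).const_smul
          lam
        have h3 : p = lam • cr (cr (g0 a) (g0 b)) (cr (g0 c) (g0 d)) := by
          funext e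
          have k := key2 (cr (g0 a) (g0 b)) (cr (g0 c) (g0 d)) p e
          rw [lagr p, lagr _ p, n1, n2] at k
          simp only [Pi.smul_apply, smul_eq_mul, hlam]
          field_simp
          linarith
        rw [h3]
        exact h1
      · intro i b hJ
        exact absurd ⟨i, b, hJ⟩ hI
      · intro i3 e f hef hJ3
        have p1 := hpos i a (by rw [hJ]; simp)
        have p2 := hpos i b (by rw [hJ]; simp)
        have p3 := hpos i' c (by rw [hJ']; simp)
        have p4 := hpos i' d (by rw [hJ']; simp)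
        have p5 := hpos i3 e (by rw [hJ3]; simp)
        have p6 := hpos i3 f (by rw [hJ3]; simp)
        filter_upwards [hh.con a b c d e f p hp0 ⟨_, _, p1, p2, s1⟩ ⟨_, _, p3, p4, s2⟩
          ⟨_, _, p5, p6, sum2 i3 e f hef hJ3⟩] with t ht
        have : d3 (lam • cr (cr (g t a) (g t b)) (cr (g t c) (g t d))) (g t e) (g t f) =
          lam * d3 (cr (g t a) (g t b)) (cr (g t c) (g t d)) (cr (g t e) (g t f)) := by
          simp [d3, dt, cr]; ring
        rw [this, ht, mul_zero]
    · exfalso
      push Not at h2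
      have hex : ∃ q : V3, cr p q ≠ 0 ∧ ∀ i a b, a ≠ b → J i = {a, b} →
          dt q (cr (g0 a) (g0 b)) = 0 := by
        by_cases h3 : ∃ i a b, a ≠ b ∧ J i = {a, b}
        · obtain ⟨i, a, b, hab, hJ⟩ := h3
          have pb := hpos i b (by rw [hJ]; simp)
          refine ⟨g0 a, ?_, ?_⟩
          · intro h
            apply hh.par b a hab.symm
            have h4 : cr p (g0 a) = S i b • cr (g0 b) (g0 a) := by
              rw [sum2 i a b hab hJ]
              funext e
              fin_cases e <;> simp [cr] <;> ring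
            rw [h4] at h
            rcases smul_eq_zero.1 h with h | h
            · exact absurd h pb.ne'
            · exact h
          · intro i' c d hcd hJ'
            exact parN (hh.par a b hab) (h2 i i' a b c d hab hcd hJ hJ')
              (by simp [dt, cr]; ring)
        · obtain ⟨q, hq⟩ := exq hp0
          refine ⟨q, hq, fun i a b hab hJ => absurd ⟨i, a, b, hab, hJ⟩ h3⟩
      obtain ⟨q, hq1, hq2⟩ := hex
      apply hq1
      apply hq
      intro i
      rcases htype i with ⟨b, hJ⟩ | ⟨a, b, hab, hJ⟩ | ⟨a, b, c, hab, hac, hbc, hJ, hD⟩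
      · exact absurd ⟨i, b, hJ⟩ hI
      · obtain ⟨z, z1, z2⟩ := cr2 g0 (hh.par a b hab) q (hq2 i a b hab hJ)
        refine ⟨z, fun j hj => (memJ i j).1 ?_, z2⟩
        rw [hJ]
        simpa using z1 j hj
      · obtain ⟨z, z1, z2⟩ := cr3 g0 hD q
        refine ⟨z, fun j hj => (memJ i j).1 ?_, z2⟩
        rw [hJ]
        simpa using z1 j hj

end Pool.Agent.R137.OP.M1x
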