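import Pool.Agent.R137.OP.Stm

/-! Common lemmas for the pieces M0 and M1 of project OP (MP_7b675e_co). -/

set_option autoImplicit false

namespace Pool.Agent.R137.OP.MC

open Filter Topology Set
open scoped BigOperators

theorem key2 (a b p : V3) (c : Fin 3) :
    dt (cr a b) (cr a b) * p c = dt (cr p b) (cr a b) * a c + dt (cr a p) (cr a b) * b c +
      dt p (cr a b) * cr a b c := by
  fin_cases c <;> simp [dt, cr] <;> ring

theorem key3 (a b c p : V3) (i : Fin 3) :
    d3 a b c * p i = d3 p b c * a i + d3 a p c * b i + d3 a b p * c i := by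
  fin_cases i <;> simp [d3, dt, cr] <;> ring

theorem dt_pos {a : V3} (h : a ≠ 0) : 0 < dt a a := by
  have h0 : 0 ≤ dt a a :=
    add_nonneg (add_nonneg (mul_self_nonneg _) (mul_self_nonneg _)) (mul_self_nonneg _)
  rcases h0.lt_or_eq with h1 | h1
  · exact h1
  · exfalso
    apply h
    unfold dt at h1
    have e0 : a 0 = 0 := by nlinarith [sq_nonneg (a 0), sq_nonneg (a 1), sq_nonneg (a 2)]
    have e1 : a 1 = 0 := by nlinarith [sq_nonneg (a 0), sq_nonneg (a 1), sq_nonneg (a 2)]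
    have e2 : a 2 = 0 := by nlinarith [sq_nonneg (a 0), sq_nonneg (a 1), sq_nonneg (a 2)]
    funext i
    fin_cases i
    · exact e0
    · exact e1
    · exact e2

theorem tendsto_cr {x y : ℝ → V3} {x0 y0 : V3} {l : Filter ℝ} (hx : Tendsto x l (𝓝 x0))
    (hy : Tendsto y l (𝓝 y0)) : Tendsto (fun t => cr (x t) (y t)) l (𝓝 (cr x0 y0)) := by
  have hc : Continuous fun p : V3 × V3 => cr p.1 p.2 := by
    unfold cr
    refine continuous_pi fun i => ?_
    fin_cases i <;> simp <;> fun_prop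
  exact (hc.tendsto (x0, y0)).comp (hx.prodMk_nhds hy)

theorem tendsto_dt {x y : ℝ → V3} {x0 y0 : V3} {l : Filter ℝ} (hx : Tendsto x l (𝓝 x0))
    (hy : Tendsto y l (𝓝 y0)) : Tendsto (fun t => dt (x t) (y t)) l (𝓝 (dt x0 y0)) := by
  have hc : Continuous fun p : V3 × V3 => dt p.1 p.2 := by
    unfold dt
    fun_prop
  exact (hc.tendsto (x0, y0)).comp (hx.prodMk_nhds hy)

theorem tendsto_d3 {x y z : ℝ → V3} {x0 y0 z0 : V3} {l : Filter ℝ} (hx : Tendsto x l (𝓝 x0))
    (hy : Tendsto y l (𝓝 y0)) (hz : Tendsto z l (𝓝 z0)) :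
    Tendsto (fun t => d3 (x t) (y t) (z t)) l (𝓝 (d3 x0 y0 z0)) :=
  tendsto_dt hx (tendsto_cr hy hz)

theorem P2 {x y q : ℝ → V3} {x0 y0 p : V3} {α β : ℝ} (hx : Tendsto x (𝓝 0) (𝓝 x0))
    (hy : Tendsto y (𝓝 0) (𝓝 y0)) (hq : Tendsto q (𝓝 0) (𝓝 p)) (hN : cr x0 y0 ≠ 0)
    (hα : 0 < α) (hβ : 0 < β) (hp : p = fun c => α * x0 c + β * y0 c)
    (hd : ∀ᶠ t in 𝓝 (0 : ℝ), d3 (q t) (x t) (y t) = 0) :
    ∀ᶠ t in 𝓝 (0 : ℝ), ∃ α' β' : ℝ, 0 < α' ∧ 0 < β' ∧
      ∀ c, α' * x t c + β' * y t c = q t c := by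
  have hN' := dt_pos hN
  have hA : Tendsto (fun t => dt (cr (q t) (y t)) (cr (x t) (y t))) (𝓝 0)
      (𝓝 (α * dt (cr x0 y0) (cr x0 y0))) := by
    have h := tendsto_dt (tendsto_cr hq hy) (tendsto_cr hx hy)
    have e : dt (cr p y0) (cr x0 y0) = α * dt (cr x0 y0) (cr x0 y0) := by
      rw [hp]; simp [dt, cr]; ring
    rwa [e] at h
  have hB : Tendsto (fun t => dt (cr (x t) (q t)) (cr (x t) (y t))) (𝓝 0)
      (𝓝 (β * dt (cr x0 y0) (cr x0 y0))) := by
    have h := tendsto_dt (tendsto_cr hx hq) (tendsto_cr hx hy)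
    have e : dt (cr x0 p) (cr x0 y0) = β * dt (cr x0 y0) (cr x0 y0) := by
      rw [hp]; simp [dt, cr]; ring
    rwa [e] at h
  have hE := tendsto_dt (tendsto_cr hx hy) (tendsto_cr hx hy)
  filter_upwards [hA.eventually_const_lt (mul_pos hα hN'), hB.eventually_const_lt (mul_pos hβ hN'),
    hE.eventually_const_lt hN', hd] with t h1 h2 h3 h4
  refine ⟨_, _, div_pos h1 h3, div_pos h2 h3, fun c => ?_⟩
  have k := key2 (x t) (y t) (q t) c
  have h5 : dt (q t) (cr (x t) (y t)) = 0 := h4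
  rw [h5, zero_mul, add_zero] at k
  field_simp
  linarith

theorem P3 {x y z q : ℝ → V3} {x0 y0 z0 p : V3} {α β γ : ℝ} (hx : Tendsto x (𝓝 0) (𝓝 x0))
    (hy : Tendsto y (𝓝 0) (𝓝 y0)) (hz : Tendsto z (𝓝 0) (𝓝 z0)) (hq : Tendsto q (𝓝 0) (𝓝 p))
    (hD : d3 x0 y0 z0 ≠ 0) (hα : 0 < α) (hβ : 0 < β) (hγ : 0 < γ)
    (hp : p = fun c => α * x0 c + β * y0 c + γ * z0 c) :
    ∀ᶠ t in 𝓝 (0 : ℝ), ∃ α' β' γ' : ℝ, 0 < α' ∧ 0 < β' ∧ 0 < γ' ∧
      ∀ c, α' * x t c + β' * y t c + γ' * z t c = q t c := by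
  have hE := tendsto_d3 hx hy hz
  have hA : Tendsto (fun t => d3 (q t) (y t) (z t) / d3 (x t) (y t) (z t)) (𝓝 0) (𝓝 α) := by
    have h := (tendsto_d3 hq hy hz).div hE hD
    have e : d3 p y0 z0 / d3 x0 y0 z0 = α := by
      rw [div_eq_iff hD, hp]; simp [d3, dt, cr]; ring
    rwa [e] at h
  have hB : Tendsto (fun t => d3 (x t) (q t) (z t) / d3 (x t) (y t) (z t)) (𝓝 0) (𝓝 β) := by
    have h := (tendsto_d3 hx hq hz).div hE hD
    have e : d3 x0 p z0 / d3 x0 y0 z0 = β := by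
      rw [div_eq_iff hD, hp]; simp [d3, dt, cr]; ring
    rwa [e] at h
  have hC : Tendsto (fun t => d3 (x t) (y t) (q t) / d3 (x t) (y t) (z t)) (𝓝 0) (𝓝 γ) := by
    have h := (tendsto_d3 hx hy hq).div hE hD
    have e : d3 x0 y0 p / d3 x0 y0 z0 = γ := by
      rw [div_eq_iff hD, hp]; simp [d3, dt, cr]; ring
    rwa [e] at h
  filter_upwards [hA.eventually_const_lt hα, hB.eventually_const_lt hβ,
    hC.eventually_const_lt hγ, hE.eventually_ne hD] with t h1 h2 h3 h4
  refine ⟨_, _, _, h1, h2, h3, fun c => ?_⟩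
  have k := key3 (x t) (y t) (z t) (q t) c
  field_simp
  linarith

/-- a nonnegative row with support `J` and sum `v` -/
def Rw {n : ℕ} (J : Finset (Fin n)) (x : Fin n → V3) (v : V3) : Prop :=
  ∃ r : Fin n → ℝ, (∀ j, 0 ≤ r j) ∧ (∀ j, r j ≠ 0 ↔ j ∈ J) ∧ ∀ c, ∑ j, r j * x j c = v c

theorem rw_empty {n : ℕ} (x : Fin n → V3) : Rw ∅ x 0 :=
  ⟨0, fun _ => le_rfl, fun j => by simp, fun c => by simp⟩

theorem rw_insert {n : ℕ} {J : Finset (Fin n)} {x : Fin n → V3} {v : V3} (h : Rw J x v)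
    (b : Fin n) (hb : b ∉ J) {γ : ℝ} (hγ : 0 < γ) :
    Rw (insert b J) x (fun c => γ * x b c + v c) := by
  obtain ⟨r, h1, h2, h3⟩ := h
  have hr : r b = 0 := by
    by_contra h
    exact hb ((h2 b).1 h)
  refine ⟨fun j => Pi.single (M := fun _ => ℝ) b γ j + r j, fun j => ?_, fun j => ?_, fun c => ?_⟩
  · by_cases h : j = b
    · subst h
      simp only [Pi.single_eq_same, hr]
      linarith
    · simp only [Pi.single_eq_of_ne h, zero_add]
      exact h1 j
  · by_cases h : j = b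
    · subst h
      simp [hr, hγ.ne']
    · simp only [Pi.single_eq_of_ne h, zero_add, Finset.mem_insert, h, false_or]
      exact h2 j
  · simp only [add_mul, Finset.sum_add_distrib, h3]
    congr 1
    rw [Finset.sum_eq_single b]
    · simp
    · intro j _ hj
      simp [Pi.single_eq_of_ne hj]
    · intro h
      exact absurd (Finset.mem_univ b) h

theorem lemM {n : ℕ} {g : Fin n → V3} {S : Fin n → Fin n → ℝ} (hS : MinS g S)
    (z : Fin n → Fin n → ℝ) (hz : ∀ i j, z i j ≠ 0 → S i j ≠ 0)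
    (hr : ∀ i i' c, ∑ j, z i j * g j c = ∑ j, z i' j * g j c) :
    ∃ μ : ℝ, ∀ i j, z i j = μ * S i j := by
  have main : ∀ z : Fin n → Fin n → ℝ, (∀ i j, z i j ≠ 0 → S i j ≠ 0) →
      (∀ i i' c, ∑ j, z i j * g j c = ∑ j, z i' j * g j c) →
      (∃ i j, 0 < z i j) → ∃ μ : ℝ, ∀ i j, z i j = μ * S i j := by
    intro z hz hr ⟨i0, j0, h0⟩
    obtain ⟨⟨hp, hrow⟩, hne, hmin⟩ := hS
    let T : Finset (Fin n × Fin n) := Finset.univ.filter fun e => 0 < z e.1 e.2
    have hT : T.Nonempty := ⟨(i0, j0), by simp [T, h0]⟩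
    obtain ⟨e, heT, he⟩ := Finset.exists_min_image T (fun e => S e.1 e.2 / z e.1 e.2) hT
    have hze : 0 < z e.1 e.2 := by simpa [T] using heT
    set lam := S e.1 e.2 / z e.1 e.2 with hlam
    have hl0 : 0 ≤ lam := div_nonneg (hp _ _) hze.le
    let S' : Fin n → Fin n → ℝ := fun i j => S i j - lam * z i j
    have hS'0 : ∀ i j, 0 ≤ S' i j := by
      intro i j
      rcases le_or_gt (z i j) 0 with h | h
      · have : lam * z i j ≤ 0 := mul_nonpos_of_nonneg_of_nonpos hl0 h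
        have := hp i j
        simp only [S']
        linarith
      · have h1 := he (i, j) (by simp [T, h])
        simp only at h1
        rw [le_div_iff₀ h] at h1
        simp only [S']
        linarith
    have hS'P : S' ∈ PT g := by
      refine ⟨hS'0, fun i i' c => ?_⟩
      have e1 : ∀ i, ∑ j, S' i j * g j c = ∑ j, S i j * g j c - lam * ∑ j, z i j * g j c := by
        intro i
        rw [Finset.mul_sum, ← Finset.sum_sub_distrib]
        exact Finset.sum_congr rfl fun j _ => by simp only [S']; ring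
      rw [e1, e1, hrow i i' c, hr i i' c]
    have hS'e : S' e.1 e.2 = 0 := by
      simp only [S', hlam]
      field_simp
      ring
    have hzero : S' = 0 := by
      by_contra hne'
      refine hmin S' hS'P hne' ?_ e.1 e.2 (hz _ _ hze.ne') hS'e
      intro i j h1 h2
      apply h1
      have : z i j = 0 := by
        by_contra h3
        exact hz i j h3 h2
      simp only [S', this, h2]
      ring
    have hSz : ∀ i j, S i j = lam * z i j := by
      intro i j
      have := congrFun (congrFun hzero i) j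
      simp only [S', Pi.zero_apply] at this
      linarith
    have hlne : lam ≠ 0 := by
      intro h
      apply hne
      funext i j
      rw [hSz, h]
      simp
    refine ⟨lam⁻¹, fun i j => ?_⟩
    rw [hSz]
    field_simp
  by_cases h : ∃ i j, 0 < z i j
  · exact main z hz hr h
  · by_cases h' : ∃ i j, 0 < -z i j
    · obtain ⟨μ, hμ⟩ := main (fun i j => -z i j) (fun i j h => hz i j (by simpa using h))
        (fun i i' c => by
          simp only [neg_mul, Finset.sum_neg_distrib]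
          rw [hr i i' c]) h'
      exact ⟨-μ, fun i j => by have h1 : -z i j = μ * S i j := hμ i j; linarith⟩
    · refine ⟨0, fun i j => ?_⟩
      push Not at h h'
      have h1 := h i j
      have h2 := h' i j
      linarith

/-- four vectors of `ℝ³` are dependent -/
theorem dep4 {n : ℕ} (g : Fin n → V3) (T : Finset (Fin n)) (hT : 4 ≤ T.card) :
    ∃ z : Fin n → ℝ, (∀ j, z j ≠ 0 → j ∈ T) ∧ (∃ j, z j ≠ 0) ∧ ∀ c, ∑ j, z j * g j c = 0 := by
  have h : ¬ LinearIndependent ℝ (fun j : T => g j) := by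
    intro h
    have := h.fintype_card_le_finrank
    simp at this
    omega
  rw [Fintype.not_linearIndependent_iff] at h
  obtain ⟨f, hf, i, hi⟩ := h
  refine ⟨fun j => if h : j ∈ T then f ⟨j, h⟩ else 0, fun j hj => ?_, ⟨i, ?_⟩, fun c => ?_⟩
  · by_contra h
    exact hj (dif_neg h)
  · simp [hi]
  · have h1 := congrFun hf c
    simp only [Finset.sum_apply, Pi.smul_apply, smul_eq_mul, Pi.zero_apply] at h1
    have h2 : ∑ j, (if h : j ∈ T then f ⟨j, h⟩ else 0) * g j c =
        ∑ j ∈ T, (if h : j ∈ T then f ⟨j, h⟩ else 0) * g j c := by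
      symm
      apply Finset.sum_subset (Finset.subset_univ _)
      intro j _ hj
      rw [dif_neg hj, zero_mul]
    rw [h2, ← Finset.sum_coe_sort, ← h1]
    refine Finset.sum_congr rfl fun j _ => ?_
    simp

/-- three vectors with vanishing determinant are dependent -/
theorem dep3 {n : ℕ} (g : Fin n → V3) {a b c : Fin n} (hac : a ≠ c) (hbc : b ≠ c)
    (hN : cr (g a) (g b) ≠ 0) (hd : d3 (g a) (g b) (g c) = 0) :
    ∃ z : Fin n → ℝ, (∀ j, z j ≠ 0 → j = a ∨ j = b ∨ j = c) ∧ z c ≠ 0 ∧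
      ∀ e, ∑ j, z j * g j e = 0 := by
  have hN' := dt_pos hN
  refine ⟨fun j => Pi.single (M := fun _ => ℝ) a (dt (cr (g c) (g b)) (cr (g a) (g b))) j +
    Pi.single (M := fun _ => ℝ) b (dt (cr (g a) (g c)) (cr (g a) (g b))) j +
    Pi.single (M := fun _ => ℝ) c (- dt (cr (g a) (g b)) (cr (g a) (g b))) j, ?_, ?_, ?_⟩
  · intro j hj
    by_contra h
    push Not at h
    apply hj
    simp [Pi.single_eq_of_ne h.1, Pi.single_eq_of_ne h.2.1, Pi.single_eq_of_ne h.2.2]
  · simp only [Pi.single_eq_of_ne hac.symm, Pi.single_eq_of_ne hbc.symm, Pi.single_eq_same]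
    intro h
    linarith
  · intro e
    have s : ∀ (b : Fin n) (γ : ℝ), ∑ j, Pi.single (M := fun _ => ℝ) b γ j * g j e = γ * g b e := by
      intro b γ
      rw [Finset.sum_eq_single b]
      · simp
      · intro j _ hj
        simp [Pi.single_eq_of_ne hj]
      · intro h
        exact absurd (Finset.mem_univ b) h
    simp only [add_mul, Finset.sum_add_distrib, s]
    have k := key2 (g a) (g b) (g c) e
    have h5 : dt (g c) (cr (g a) (g b)) = 0 := by
      rw [← hd]; simp [d3, dt, cr]; ring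
    rw [h5] at k
    linarith

end Pool.Agent.R137.OP.MC
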