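import Pool.Agent.R137.OP.Stm

/-!
# Project OP, piece S: closedness of slack spaces (helper208)
-/

set_option autoImplicit false

namespace Pool.Agent.R137.OP.Sx

open Filter Topology Set
open scoped BigOperators

/-- the slack map -/
def Phi {n d : ℕ} (X : Fin n → Fin d → ℝ) (w : ℝ × (Fin n → Fin d → ℝ)) :
    Equiv.Perm (Fin n) → ℝ :=
  fun π => w.1 - ∑ i, ∑ a, w.2 i a * X (π i) a

/-- the slack map together with the column sums -/
def Psi {n d : ℕ} (X : Fin n → Fin d → ℝ) :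
    (ℝ × (Fin n → Fin d → ℝ)) →ₗ[ℝ] (Equiv.Perm (Fin n) → ℝ) × (Fin d → ℝ) where
  toFun w := (Phi X w, fun a => ∑ i, w.2 i a)
  map_add' := by
    intro w w'
    ext t
    · simp only [Phi, Prod.fst_add, Prod.snd_add, Pi.add_apply, add_mul, Finset.sum_add_distrib]
      ring
    · simp only [Prod.snd_add, Pi.add_apply, Finset.sum_add_distrib]
  map_smul' := by
    intro c w
    ext t
    · simp only [Phi, Prod.smul_fst, Prod.smul_snd, Pi.smul_apply, smul_eq_mul, mul_assoc,
        ← Finset.mul_sum, RingHom.id_apply]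
      ring
    · simp only [Prod.smul_snd, Pi.smul_apply, smul_eq_mul, ← Finset.mul_sum, RingHom.id_apply]

theorem two_point {n : ℕ} {i k j l : Fin n} (hik : i ≠ k) (hjl : j ≠ l) :
    ∃ π : Equiv.Perm (Fin n), π i = j ∧ π k = l := by
  refine ⟨Equiv.swap (Equiv.swap i j k) l * Equiv.swap i j, ?_, ?_⟩
  · rw [Equiv.Perm.mul_apply, Equiv.swap_apply_left]
    apply Equiv.swap_apply_of_ne_of_ne
    · intro h
      have h' : Equiv.swap i j i = Equiv.swap i j k := by rw [Equiv.swap_apply_left]; exact h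
      exact hik ((Equiv.swap i j).injective h')
    · exact hjl
  · rw [Equiv.Perm.mul_apply, Equiv.swap_apply_left]

theorem pos_of {n d : ℕ} (X : Fin n → Fin d → ℝ)
    (hX : ∀ (v : ℝ) (y : Fin d → ℝ), (∀ j, v + ∑ a, y a * X j a = 0) → v = 0 ∧ y = 0) :
    0 < n := by
  rcases Nat.eq_zero_or_pos n with h0 | h0
  · subst h0
    exact absurd (hX 1 0 (fun j => j.elim0)).1 one_ne_zero
  · exact h0

theorem ker_Psi {n d : ℕ} (X : Fin n → Fin d → ℝ)
    (hX : ∀ (v : ℝ) (y : Fin d → ℝ), (∀ j, v + ∑ a, y a * X j a = 0) → v = 0 ∧ y = 0) :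
    LinearMap.ker (Psi X) = ⊥ := by
  rw [LinearMap.ker_eq_bot']
  rintro ⟨u, Y⟩ h
  have h1 : ∀ π : Equiv.Perm (Fin n), u - ∑ i, ∑ a, Y i a * X (π i) a = 0 :=
    fun π => congrFun (congrArg Prod.fst h) π
  have h2 : ∀ a, ∑ i, Y i a = 0 := fun a => congrFun (congrArg Prod.snd h) a
  have hn : 0 < n := pos_of X hX
  have hYY : ∀ i k, Y i = Y k := by
    intro i k
    by_cases hik : i = k
    · rw [hik]
    have key : ∀ j l, ∑ a, (Y i a - Y k a) * X j a = ∑ a, (Y i a - Y k a) * X l a := by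
      intro j l
      by_cases hjl : j = l
      · rw [hjl]
      obtain ⟨π, hπi, hπk⟩ := two_point hik hjl
      have e1 := h1 π
      have e2 := h1 (π * Equiv.swap i k)
      have e3 : ∑ t, (∑ a, Y t a * X (π t) a - ∑ a, Y t a * X ((π * Equiv.swap i k) t) a) = 0 := by
        rw [Finset.sum_sub_distrib]; linarith
      rw [Fintype.sum_eq_add i k hik] at e3
      · simp only [Equiv.Perm.mul_apply, Equiv.swap_apply_left, Equiv.swap_apply_right,
          hπi, hπk] at e3
        simp only [sub_mul, Finset.sum_sub_distrib]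
        linarith
      · rintro t ⟨ht1, ht2⟩
        rw [Equiv.Perm.mul_apply, Equiv.swap_apply_of_ne_of_ne ht1 ht2, sub_self]
    have h3 := hX (-(∑ a, (Y i a - Y k a) * X ⟨0, hn⟩ a)) (fun a => Y i a - Y k a) (fun j => by
      have h4 := key j ⟨0, hn⟩
      linarith)
    funext a
    have h5 := congrFun h3.2 a
    simp only [Pi.zero_apply] at h5
    linarith
  have hY : Y = 0 := by
    funext i a
    have h6 := h2 a
    have h7 : ∑ k, Y k a = ∑ _k : Fin n, Y i a := Finset.sum_congr rfl fun k _ => by rw [hYY k i]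
    rw [h7, Finset.sum_const, Finset.card_univ, Fintype.card_fin, nsmul_eq_mul] at h6
    rcases mul_eq_zero.mp h6 with h8 | h8
    · exact absurd (Nat.cast_eq_zero.mp h8) hn.ne'
    · exact h8
  have hu : u = 0 := by
    have h9 := h1 1
    rw [hY] at h9
    simpa using h9
  rw [hY, hu]
  rfl

theorem Phi_mem {n d : ℕ} (X : Fin n → Fin d → ℝ) (w : ℝ × (Fin n → Fin d → ℝ)) :
    Phi X w ∈ KX X := ⟨w.1, w.2, fun _ => rfl⟩

theorem normalise {n d : ℕ} (hn : 0 < n) (X : Fin n → Fin d → ℝ) (x : Equiv.Perm (Fin n) → ℝ)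
    (hx : x ∈ KX X) : ∃ w : ℝ × (Fin n → Fin d → ℝ), (∀ a, ∑ i, w.2 i a = 0) ∧ Phi X w = x := by
  obtain ⟨u, Y, h⟩ := hx
  have hn' : (n : ℝ) ≠ 0 := Nat.cast_ne_zero.mpr hn.ne'
  refine ⟨(u - ∑ j, ∑ a, ((∑ i, Y i a) / n) * X j a, fun i a => Y i a - (∑ i, Y i a) / n), ?_, ?_⟩
  · intro a
    simp only [Finset.sum_sub_distrib, Finset.sum_const, Finset.card_univ, Fintype.card_fin,
      nsmul_eq_mul]
    field_simp
    ring
  · funext π
    rw [h π]
    simp only [Phi, sub_mul, Finset.sum_sub_distrib]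
    have h2 : ∑ i, ∑ a, ((∑ i, Y i a) / n) * X (π i) a = ∑ j, ∑ a, ((∑ i, Y i a) / n) * X j a :=
      Equiv.sum_comp π (fun j => ∑ a, ((∑ i, Y i a) / n) * X j a)
    rw [h2]
    ring

theorem Phi_diff {n d : ℕ} (X X0 : Fin n → Fin d → ℝ) (w : ℝ × (Fin n → Fin d → ℝ)) :
    ‖Phi X0 w - Phi X w‖ ≤ (n * d * ‖X - X0‖) * ‖w‖ := by
  have hnn : 0 ≤ (n * d * ‖X - X0‖) * ‖w‖ := by positivity
  rw [pi_norm_le_iff_of_nonneg hnn]
  intro π
  have e : (Phi X0 w - Phi X w) π = ∑ i, ∑ a, w.2 i a * (X - X0) (π i) a := by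
    simp only [Phi, Pi.sub_apply, mul_sub, Finset.sum_sub_distrib]
    ring
  rw [e]
  have hw : ‖w.2‖ ≤ ‖w‖ := norm_snd_le w
  calc ‖∑ i, ∑ a, w.2 i a * (X - X0) (π i) a‖
      ≤ ∑ i, ‖∑ a, w.2 i a * (X - X0) (π i) a‖ := norm_sum_le _ _
    _ ≤ ∑ i : Fin n, ∑ a : Fin d, ‖w‖ * ‖X - X0‖ := by
        refine Finset.sum_le_sum fun i _ => (norm_sum_le _ _).trans ?_
        refine Finset.sum_le_sum fun a _ => ?_
        rw [norm_mul]
        refine mul_le_mul ?_ ?_ (norm_nonneg _) (norm_nonneg _)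
        · exact (norm_le_pi_norm (w.2 i) a).trans ((norm_le_pi_norm w.2 i).trans hw)
        · exact (norm_le_pi_norm ((X - X0) (π i)) a).trans (norm_le_pi_norm (X - X0) (π i))
    _ = (n * d * ‖X - X0‖) * ‖w‖ := by
        simp only [Finset.sum_const, Finset.card_univ, Fintype.card_fin, nsmul_eq_mul]
        ring

theorem main : S_SLK := by
  intro n d X0 X hX hinj
  constructor
  · intro φ hφ x y hx hy
    have hn : 0 < n := pos_of X0 hinj
    choose w hw1 hw2 using fun m => normalise hn (X (φ m)) (x m) (hx m)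
    obtain ⟨K, hK0, hK⟩ := (Psi X0).exists_antilipschitzWith (ker_Psi X0 hinj)
    have hKw : ∀ m, ‖w m‖ ≤ K * ‖Phi X0 (w m)‖ := by
      intro m
      have h := hK.le_mul_dist (w m) 0
      rw [map_zero, dist_zero_right, dist_zero_right] at h
      have h2 : Psi X0 (w m) = (Phi X0 (w m), 0) := by
        refine Prod.ext rfl ?_
        funext a
        exact hw1 m a
      have h3 : ‖((Phi X0 (w m), 0) : (Equiv.Perm (Fin n) → ℝ) × (Fin d → ℝ))‖ =
          ‖Phi X0 (w m)‖ := by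
        rw [Prod.norm_mk, norm_zero, max_eq_left (norm_nonneg _)]
      rw [h2, h3] at h
      exact h
    have hK0' : (0 : ℝ) < K := hK0
    set ε : ℕ → ℝ := fun m => n * d * ‖X (φ m) - X0‖ with hε
    have hε0 : Tendsto ε atTop (𝓝 0) := by
      have h1 : Tendsto (fun m => X (φ m)) atTop (𝓝 X0) := hX.comp hφ.tendsto_atTop
      have h2 : Tendsto (fun m => ‖X (φ m) - X0‖) atTop (𝓝 0) :=
        tendsto_iff_norm_sub_tendsto_zero.mp h1
      simpa using h2.const_mul ((n : ℝ) * d)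
    have hd : ∀ m, ‖Phi X0 (w m) - x m‖ ≤ ε m * ‖w m‖ := by
      intro m
      have h := Phi_diff (X (φ m)) X0 (w m)
      rw [hw2 m] at h
      exact h
    have hb : ∀ᶠ m in atTop, ‖w m‖ ≤ 2 * K * ‖x m‖ := by
      have h1 : ∀ᶠ m in atTop, ε m < 1 / (2 * K) := hε0.eventually (gt_mem_nhds (by positivity))
      filter_upwards [h1] with m hm
      have h2 := hKw m
      have h3 : ‖Phi X0 (w m)‖ ≤ ‖x m‖ + ε m * ‖w m‖ := by
        have := hd m
        calc ‖Phi X0 (w m)‖ = ‖x m + (Phi X0 (w m) - x m)‖ := by congr 1; abel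
          _ ≤ ‖x m‖ + ‖Phi X0 (w m) - x m‖ := norm_add_le _ _
          _ ≤ _ := by linarith
      have h4 : K * (ε m * ‖w m‖) ≤ ‖w m‖ / 2 := by
        have h5 : K * ε m ≤ 1 / 2 := by
          have := mul_le_mul_of_nonneg_left hm.le hK0'.le
          calc K * ε m ≤ K * (1 / (2 * K)) := this
            _ = 1 / 2 := by field_simp
        calc K * (ε m * ‖w m‖) = (K * ε m) * ‖w m‖ := by ring
          _ ≤ 1 / 2 * ‖w m‖ := mul_le_mul_of_nonneg_right h5 (norm_nonneg _)
          _ = ‖w m‖ / 2 := by ring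
      have h6 : K * ‖Phi X0 (w m)‖ ≤ K * ‖x m‖ + K * (ε m * ‖w m‖) := by
        rw [← mul_add]; exact mul_le_mul_of_nonneg_left h3 hK0'.le
      linarith
    have hlim0 : Tendsto (fun m => Phi X0 (w m) - x m) atTop (𝓝 0) := by
      have h1 : Tendsto (fun m => ε m * (2 * K * ‖x m‖)) atTop (𝓝 0) := by
        have := hε0.mul ((hy.norm).const_mul (2 * (K : ℝ)))
        simpa using this
      refine squeeze_zero_norm' ?_ h1
      filter_upwards [hb] with m hm
      refine (hd m).trans ?_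
      exact mul_le_mul_of_nonneg_left hm (by simp only [hε]; positivity)
    have hlim : Tendsto (fun m => Phi X0 (w m)) atTop (𝓝 y) := by
      have := hlim0.add hy
      simpa using this
    have hcl := Submodule.closed_of_finiteDimensional (KX X0)
    exact hcl.mem_of_tendsto hlim (Eventually.of_forall fun m => Phi_mem X0 (w m))
  · intro y hy
    obtain ⟨u, Y, h⟩ := hy
    refine ⟨fun m => Phi (X m) (u, Y), fun m => Phi_mem (X m) (u, Y), ?_⟩
    have hy' : y = Phi X0 (u, Y) := funext h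
    rw [hy', tendsto_pi_nhds]
    intro π
    simp only [Phi]
    refine tendsto_const_nhds.sub ?_
    refine tendsto_finsetSum _ fun i _ => tendsto_finsetSum _ fun a _ => ?_
    refine tendsto_const_nhds.mul ?_
    exact (tendsto_pi_nhds.mp (tendsto_pi_nhds.mp hX (π i)) a)

end Pool.Agent.R137.OP.Sx
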