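import Pool.Agent.R137.OP.Stm

set_option autoImplicit false

namespace Pool.Agent.R137.OP.Tx

open Filter Topology Set

theorem deriv_mem {E : Type} [NormedAddCommGroup E] [NormedSpace ℝ E] [FiniteDimensional ℝ E]
    (L : Submodule ℝ E) (f : ℝ → E) (v : E) (hf : HasDerivAt f v 0)
    (h : ∀ᶠ t in 𝓝 (0 : ℝ), f t - f 0 ∈ L) : v ∈ L := by
  rw [hasDerivAt_iff_tendsto_slope] at hf
  have hcl : IsClosed (L : Set E) := L.closed_of_finiteDimensional
  refine hcl.mem_of_tendsto hf ?_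
  have h' : ∀ᶠ t in 𝓝[≠] (0 : ℝ), f t - f 0 ∈ L := h.filter_mono nhdsWithin_le_nhds
  filter_upwards [h'] with t ht
  rw [slope_def_module]
  exact L.smul_mem _ ht

theorem main : S_TAN := by
  classical
  intro E _ _ _ M hM c1 c2 v1 v2 w0 h10 h20 hd1 hd2 hc1 hc2
  have hw0 : w0 ∈ M := by
    have := hc1.self_of_nhds
    rwa [h10] at this
  obtain ⟨φ, hs, hφ, hψ, L, hL⟩ := hM w0 hw0
  have hφd : HasFDerivAt φ (fderiv ℝ φ w0) w0 := by
    apply DifferentiableAt.hasFDerivAt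
    exact ((hφ.contDiffAt (φ.open_source.mem_nhds hs)).differentiableAt (by norm_num))
  have htgt : φ w0 ∈ φ.target := φ.map_source hs
  have hψd : HasFDerivAt φ.symm (fderiv ℝ φ.symm (φ w0)) (φ w0) := by
    apply DifferentiableAt.hasFDerivAt
    exact ((hψ.contDiffAt (φ.open_target.mem_nhds htgt)).differentiableAt (by norm_num))
  have hcomp : (fderiv ℝ φ.symm (φ w0)).comp (fderiv ℝ φ w0) = ContinuousLinearMap.id ℝ E := by
    have h1 : HasFDerivAt (φ.symm ∘ φ) ((fderiv ℝ φ.symm (φ w0)).comp (fderiv ℝ φ w0)) w0 :=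
      hψd.comp w0 hφd
    have h2 : HasFDerivAt (φ.symm ∘ φ) (ContinuousLinearMap.id ℝ E) w0 := by
      refine (hasFDerivAt_id w0).congr_of_eventuallyEq ?_
      filter_upwards [φ.eventually_left_inverse hs] with y hy
      exact hy
    exact h1.unique h2
  have hv : ∀ (c : ℝ → E) (v : E), c 0 = w0 → HasDerivAt c v 0 → (∀ᶠ t in 𝓝 (0 : ℝ), c t ∈ M) →
      fderiv ℝ φ w0 v ∈ L := by
    intro c v hc0 hcd hcM
    have h1 : HasDerivAt (fun t => φ (c t)) (fderiv ℝ φ w0 v) 0 := by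
      have h2 : HasFDerivAt φ (fderiv ℝ φ w0) (c 0) := by rw [hc0]; exact hφd
      exact h2.comp_hasDerivAt 0 hcd
    refine deriv_mem L _ _ h1 ?_
    have hsrc : ∀ᶠ t in 𝓝 (0 : ℝ), c t ∈ φ.source := by
      apply hcd.continuousAt.eventually_mem
      rw [hc0]
      exact φ.open_source.mem_nhds hs
    filter_upwards [hcM, hsrc] with t ht1 ht2
    rw [hc0]
    exact (hL (c t) ht2).1 ht1
  have hu : fderiv ℝ φ w0 (v1 + v2) ∈ L := by
    rw [map_add]
    exact L.add_mem (hv c1 v1 h10 hd1 hc1) (hv c2 v2 h20 hd2 hc2)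
  set u : E := fderiv ℝ φ w0 (v1 + v2) with hu_def
  let y : ℕ → E := fun m => φ w0 + ((m : ℝ))⁻¹ • u
  have hy : Tendsto y atTop (𝓝 (φ w0)) := by
    have h1 : Tendsto (fun m : ℕ => ((m : ℝ))⁻¹ • u) atTop (𝓝 ((0 : ℝ) • u)) :=
      (tendsto_inv_atTop_nhds_zero_nat (𝕜 := ℝ)).smul_const u
    rw [zero_smul] at h1
    have h2 := h1.const_add (φ w0)
    rwa [add_zero] at h2
  have hyt : ∀ᶠ m in atTop, y m ∈ φ.target := hy.eventually (φ.open_target.mem_nhds htgt)
  refine ⟨fun m => if y m ∈ φ.target then φ.symm (y m) else w0, ?_, ?_, ?_⟩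
  · intro m
    simp only
    split_ifs with h
    · rw [hL _ (φ.map_target h), φ.right_inv h]
      have : y m - φ w0 = ((m : ℝ))⁻¹ • u := by simp [y]
      rw [this]
      exact L.smul_mem _ hu
    · exact hw0
  · have h1 : Tendsto (fun m => φ.symm (y m)) atTop (𝓝 (φ.symm (φ w0))) :=
      (hψd.continuousAt.tendsto).comp hy
    rw [φ.left_inv hs] at h1
    refine h1.congr' ?_
    filter_upwards [hyt] with m hm
    rw [if_pos hm]
  · have h1 := hψd.lim (α := ℕ) (c := fun m : ℕ => (m : ℝ)) (l := atTop) u (by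
      have : (fun m : ℕ => ‖(m : ℝ)‖) = fun m : ℕ => (m : ℝ) := by
        funext m
        simp
      rw [this]
      exact tendsto_natCast_atTop_atTop)
    have h2 : fderiv ℝ φ.symm (φ w0) u = v1 + v2 := by
      have := congrArg (fun T : E →L[ℝ] E => T (v1 + v2)) hcomp
      exact this
    rw [h2] at h1
    refine h1.congr' ?_
    filter_upwards [hyt] with m hm
    rw [if_pos hm, φ.left_inv hs]

end Pool.Agent.R137.OP.Tx
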